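import Mathlib

set_option autoImplicit false

namespace Pool.Agent.Helper983.MT
open Finset

/-- Maximum principle on a finite state space. -/
theorem mp {T : Type} [Finite T] (D : Set T) (u : T → ℝ)
    (h : ∀ t ∈ D, ∀ B : ℝ, 0 ≤ B → (∀ s ∈ D, u s ≤ B) →
      ∃ s k : ℝ, 0 ≤ s ∧ 0 < k ∧ (s + k) * u t ≤ s * B) : ∀ t ∈ D, u t ≤ 0 := by
  intro t₀ ht₀
  by_contra hpos
  push Not at hpos
  obtain ⟨t₁, ht₁, hmax⟩ := Set.exists_max_image D u (Set.toFinite D) ⟨t₀, ht₀⟩
  have hB : 0 < u t₁ := lt_of_lt_of_le hpos (hmax t₀ ht₀)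
  obtain ⟨s, k, hs, hk, hle⟩ := h t₁ ht₁ (u t₁) hB.le hmax
  have : 0 < k * u t₁ := mul_pos hk hB
  nlinarith

section sol
variable {S T : Type} [Fintype S] [Fintype T]

/-- Solvability of the killed linear system. -/
theorem exists_sol (c : S → S → ℝ) (κ : S → ℝ) (loc : T → S) (nxt : T → S → T)
    (hc : ∀ x y, 0 ≤ c x y) (hκ : ∀ x, 0 < κ x) (b : T → ℝ) :
    ∃ u : T → ℝ, ∀ t, (∑ y, c (loc t) y + κ (loc t)) * u t
      = b t + ∑ y, c (loc t) y * u (nxt t y) := by
  classical
  let Lm : (T → ℝ) →ₗ[ℝ] (T → ℝ) :=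
    { toFun := fun u t => (∑ y, c (loc t) y + κ (loc t)) * u t - ∑ y, c (loc t) y * u (nxt t y)
      map_add' := by
        intro u v
        funext t
        simp only [Pi.add_apply, mul_add, Finset.sum_add_distrib]
        ring
      map_smul' := by
        intro a u
        funext t
        simp only [Pi.smul_apply, smul_eq_mul, RingHom.id_apply]
        rw [mul_sub, Finset.mul_sum]
        congr 1
        · ring
        · exact Finset.sum_congr rfl fun y _ => by ring }
  have key : ∀ u : T → ℝ, Lm u = 0 → ∀ t, u t ≤ 0 := by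
    intro u hu t
    refine mp Set.univ u ?_ t (Set.mem_univ t)
    intro t _ B hB hle
    refine ⟨∑ y, c (loc t) y, κ (loc t), Finset.sum_nonneg fun y _ => hc _ _, hκ _, ?_⟩
    have h1 : (∑ y, c (loc t) y + κ (loc t)) * u t - ∑ y, c (loc t) y * u (nxt t y) = 0 :=
      congrFun hu t
    have h2 : ∑ y, c (loc t) y * u (nxt t y) ≤ ∑ y, c (loc t) y * B :=
      Finset.sum_le_sum fun y _ => mul_le_mul_of_nonneg_left (hle _ (Set.mem_univ _)) (hc _ _)
    rw [← Finset.sum_mul] at h2
    linarith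
  have hinj : Function.Injective Lm := by
    rw [← LinearMap.ker_eq_bot, LinearMap.ker_eq_bot']
    intro u hu
    funext t
    have h1 := key u hu t
    have h2 := key (-u) (by rw [map_neg, hu, neg_zero]) t
    simp only [Pi.neg_apply] at h2
    simp only [Pi.zero_apply]
    linarith
  have hsurj : Function.Surjective Lm := LinearMap.injective_iff_surjective.1 hinj
  obtain ⟨u, hu⟩ := hsurj b
  refine ⟨u, fun t => ?_⟩
  have h1 : (∑ y, c (loc t) y + κ (loc t)) * u t - ∑ y, c (loc t) y * u (nxt t y) = b t :=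
    congrFun hu t
  linarith

end sol

end Pool.Agent.Helper983.MT
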