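import Pool.Agent.Helper983.MT.Value

set_option autoImplicit false

namespace Pool.Agent.Helper983.MT
open Finset

section
variable {S : Type} [Fintype S] [DecidableEq S] {X : Type} [MetricSpace X]
variable {c : S → S → ℝ} {κ : S → ℝ}

/-- the expected final diameter is at most the present one plus the diameter made afresh -/
lemma V_L_le_add (hc : ∀ x y, 0 ≤ c x y) (hκ : ∀ x, 0 < κ x) (f : S → X)
    {A : Finset S} {x : S} (hx : x ∈ A) :
    V c κ (L f) A x ≤ L f A + V c κ (L f) {x} x := by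
  have := mpV hc hκ (fun B _ => x ∈ B) (fun B z hB y => Finset.mem_insert_of_mem hB)
    (fun B y => V c κ (L f) (B ∪ A) y - L f A - V c κ (L f) B y) (fun B z hB => by
      have h1 := V_spec hc hκ (L f) (B ∪ A) z
      have h2 := V_spec hc hκ (L f) B z
      have h3 : κ z * L f (B ∪ A) ≤ κ z * (L f B + L f A) :=
        mul_le_mul_of_nonneg_left (L_union_le f hB hx) (hκ z).le
      simp only [mul_sub, Finset.sum_sub_distrib, ← Finset.sum_mul]
      have h4 : ∑ y, c z y * V c κ (L f) (insert y B ∪ A) y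
          = ∑ y, c z y * V c κ (L f) (insert y (B ∪ A)) y := by
        refine Finset.sum_congr rfl fun y _ => ?_
        rw [Finset.insert_union]
      rw [h4]
      linarith) {x} x (Finset.mem_singleton_self x)
  have h5 : ({x} : Finset S) ∪ A = A := Finset.union_eq_right.2 (Finset.singleton_subset_iff.2 hx)
  simp only [h5] at this
  linarith

/-- more killing, smaller value -/
lemma V_anti (hc : ∀ x y, 0 ≤ c x y) {κ₁ κ₂ : S → ℝ} (hκ₁ : ∀ x, 0 < κ₁ x)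
    (hle : ∀ x, κ₁ x ≤ κ₂ x) {g : Finset S → ℝ}
    (hg : ∀ A C, A ⊆ C → g A ≤ g C) (A : Finset S) (x : S) :
    V c κ₂ g A x ≤ V c κ₁ g A x := by
  have hκ₂ : ∀ x, 0 < κ₂ x := fun x => (hκ₁ x).trans_le (hle x)
  have := mpV hc hκ₂ (fun _ _ => True) (fun _ _ _ _ => trivial)
    (fun A x => V c κ₂ g A x - V c κ₁ g A x) (fun A x _ => by
      have h1 := V_spec hc hκ₁ g A x
      have h2 := V_spec hc hκ₂ g A x
      have h3 : (κ₂ x - κ₁ x) * g A ≤ (κ₂ x - κ₁ x) * V c κ₁ g A x :=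
        mul_le_mul_of_nonneg_left (le_V hc hκ₁ hg A x) (sub_nonneg.2 (hle x))
      simp only [mul_sub, Finset.sum_sub_distrib]
      linarith) A x trivial
  linarith

lemma young32 {a b : ℝ} (ha : 0 ≤ a) (hb : 0 ≤ b) : 3 * (a ^ 2 * b) ≤ 2 * a ^ 3 + b ^ 3 := by
  have h : 0 ≤ (a - b) ^ 2 * (2 * a + b) := by positivity
  nlinarith

lemma young_diff {a b ρ : ℝ} (ha : 0 ≤ a) (hab : a ≤ b) (hρ : 0 ≤ ρ) :
    (b ^ 2 - a ^ 2) * ρ ^ 2 ≤ 4 / 3 * ((b - a) * ρ ^ 3) + 1 / 3 * (b ^ 4 - a ^ 4) := by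
  have h1 := young32 hρ (show 0 ≤ (a + b) / 2 by linarith)
  have h2 : (a + b) * ρ ^ 2 ≤ 4 / 3 * ρ ^ 3 + (a + b) ^ 3 / 12 := by nlinarith
  have h3 : (a + b) ^ 3 / 12 ≤ (a + b) * (a ^ 2 + b ^ 2) / 3 := by
    nlinarith [mul_nonneg (show 0 ≤ a + b by linarith) (sq_nonneg (a - b)),
      mul_nonneg (show 0 ≤ a + b by linarith) (add_nonneg (sq_nonneg a) (sq_nonneg b))]
  have h5 := mul_le_mul_of_nonneg_left (h2.trans (add_le_add le_rfl h3))
    (sub_nonneg.2 hab)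
  nlinarith

/-- cube of square root of the diameter -/
noncomputable def g3 (f : S → X) (A : Finset S) : ℝ := L f A * Real.sqrt (L f A)

/-- squared diameter -/
noncomputable def g2 (f : S → X) (A : Finset S) : ℝ := L f A ^ 2

lemma g3_mono (f : S → X) (A C : Finset S) (h : A ⊆ C) : g3 f A ≤ g3 f C :=
  mul_le_mul (L_mono f h) (Real.sqrt_le_sqrt (L_mono f h)) (Real.sqrt_nonneg _) (L_nonneg f _)

lemma g2_mono (f : S → X) (A C : Finset S) (h : A ⊆ C) : g2 f A ≤ g2 f C :=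
  pow_le_pow_left₀ (L_nonneg f _) (L_mono f h) 2

lemma L_mono' (f : S → X) (A C : Finset S) (h : A ⊆ C) : L f A ≤ L f C := L_mono f h

/-- the pointwise maximal estimate through marks -/
theorem claimA_point (hc : ∀ x y, 0 ≤ c x y) {κ₀ κ' : S → ℝ} (hκ₀ : ∀ x, 0 < κ₀ x)
    (hκ' : ∀ x, 0 ≤ κ' x) (f : S → X) (ρ : S → ℝ) (hρ : ∀ x, 0 ≤ ρ x)
    (hρ3 : ∀ x, ρ x ^ 3 = V c κ₀ (g3 f) {x} x) {ε : ℝ} (hε : 0 ≤ ε) (hε1 : ε ≤ 3 / 40)
    (hfeas : ∀ x, V c (fun x => κ₀ x + κ' x) (L f) {x} x ≤ ε * ρ x ^ 2) (x : S) :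
    V c κ₀ (g2 f) {x} x ≤ 8 * G c κ₀ (fun x => κ' x * V c κ₀ (L f) {x} x ^ 2) x
      + 8 * G c κ₀ (fun x => ∑ y, c x y * dist (f x) (f y) ^ 2) x := by
  set W := V c κ₀ (g2 f) with hWdef
  set E1 := V c κ₀ (L f) with hE1def
  set E3 := V c κ₀ (g3 f) with hE3def
  set F := G c κ₀ (fun x => κ' x * E1 {x} x ^ 2) with hFdef
  set J := G c κ₀ (fun x => ∑ y, c x y * dist (f x) (f y) ^ 2) with hJdef
  have hκ : ∀ x, 0 < κ₀ x + κ' x := fun x => add_pos_of_pos_of_nonneg (hκ₀ x) (hκ' x)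
  set Φ := G c (fun x => κ₀ x + κ' x) (fun x => κ' x * E1 {x} x) with hΦdef
  have hE1nn : ∀ A x, L f A ≤ E1 A x := le_V hc hκ₀ (L_mono' f)
  have hR1nn : ∀ x, 0 ≤ E1 {x} x := fun x => (L_nonneg f _).trans (hE1nn _ _)
  have hWspec := V_spec hc hκ₀ (g2 f)
  have hE1spec := V_spec hc hκ₀ (L f)
  have hE3spec := V_spec hc hκ₀ (g3 f)
  have hFspec := G_spec hc hκ₀ (fun x => κ' x * E1 {x} x ^ 2)
  have hJspec := G_spec hc hκ₀ (fun x => ∑ y, c x y * dist (f x) (f y) ^ 2)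
  have hΦspec := G_spec hc hκ (fun x => κ' x * E1 {x} x)
  simp only [← hWdef, ← hE1def, ← hE3def, ← hFdef, ← hJdef, ← hΦdef] at hWspec hE1spec hE3spec hFspec hJspec hΦspec
  have hΦnn : ∀ x, 0 ≤ Φ x := G_nonneg hc hκ (fun x => mul_nonneg (hκ' x) (hR1nn x))
  -- R1 ≤ ε ρ² + Φ
  have hR1 : ∀ x, E1 {x} x ≤ ε * ρ x ^ 2 + Φ x := by
    intro x
    have := mpV hc hκ (fun A x => x ∈ A) (fun A x hA y => Finset.mem_insert_self _ _)
      (fun A x => E1 A x - V c (fun x => κ₀ x + κ' x) (L f) A x - Φ x) (fun A x hA => by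
        have h1 := V_spec hc hκ (L f) A x
        have h2 := hE1spec A x
        have h3 := hΦspec x
        have h4 : κ' x * E1 A x ≤ κ' x * (L f A + E1 {x} x) :=
          mul_le_mul_of_nonneg_left (V_L_le_add hc hκ₀ f hA) (hκ' x)
        simp only [mul_sub, Finset.sum_sub_distrib]
        linarith) {x} x (Finset.mem_singleton_self x)
    have h5 := hfeas x
    linarith
  -- the main comparison
  have main := mp {t : Finset S × Finset S × S | t.1 ⊆ t.2.1 ∧ t.2.2 ∈ t.2.1}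
    (fun t => (W t.2.1 t.2.2 - 2 * L f t.2.1 * E1 t.2.1 t.2.2 + L f t.2.1 ^ 2)
      + 2 * (L f t.2.1 - L f t.1) * Φ t.2.2
      + 2 * ε * (4 / 3 * Real.sqrt (L f t.2.1) * E3 t.2.1 t.2.2 + 1 / 3 * L f t.2.1 ^ 2
          - 5 / 3 * W t.2.1 t.2.2)
      - 2 * F t.2.2 - 1 / 2 * (W t.2.1 t.2.2 - 2 * L f t.1 * E1 t.2.1 t.2.2 + L f t.1 ^ 2)
      - 2 * J t.2.2) ?_ ({x}, {x}, x) ⟨subset_rfl, Finset.mem_singleton_self x⟩
  · simp only [L_singleton] at main
    norm_num at main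
    have hWnn : 0 ≤ W {x} x := le_trans (sq_nonneg (L f {x})) (le_V hc hκ₀ (g2_mono f) {x} x)
    nlinarith
  · rintro ⟨B, A, x⟩ ⟨hBA, hxA⟩ Bd hBd hle
    simp only at hBA hxA
    refine ⟨∑ y, c x y + κ' x, κ₀ x,
      add_nonneg (Finset.sum_nonneg fun y _ => hc _ _) (hκ' x), hκ₀ x, ?_⟩
    set l := L f A with hl
    set l₀ := L f B with hl₀
    have hl₀l : l₀ ≤ l := L_mono f hBA
    have hl₀nn : 0 ≤ l₀ := L_nonneg f B
    have hlnn : 0 ≤ l := L_nonneg f A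
    -- bound at the reset state
    have hreset := hle (A, A, x) ⟨subset_rfl, hxA⟩
    have hstep : ∀ y, (W (insert y A) y - 2 * L f (insert y A) * E1 (insert y A) y
          + L f (insert y A) ^ 2)
        + 2 * (L f (insert y A) - l₀) * Φ y
        + 2 * ε * (4 / 3 * Real.sqrt (L f (insert y A)) * E3 (insert y A) y
            + 1 / 3 * L f (insert y A) ^ 2 - 5 / 3 * W (insert y A) y)
        - 2 * F y - 1 / 2 * (W (insert y A) y - 2 * l₀ * E1 (insert y A) y + l₀ ^ 2)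
        - 2 * J y ≤ Bd := fun y =>
      hle (B, insert y A, y) ⟨hBA.trans (Finset.subset_insert _ _), Finset.mem_insert_self _ _⟩
    -- per-step inequality
    have hper : ∀ y, (W (insert y A) y - 2 * l * E1 (insert y A) y + l ^ 2)
        + 2 * (l - l₀) * Φ y
        + 2 * ε * (4 / 3 * Real.sqrt l * E3 (insert y A) y + 1 / 3 * l ^ 2
            - 5 / 3 * W (insert y A) y)
        - 2 * F y - 1 / 2 * (W (insert y A) y - 2 * l₀ * E1 (insert y A) y + l₀ ^ 2)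
        - 2 * J y - 2 * dist (f x) (f y) ^ 2 ≤ Bd := by
      intro y
      refine le_trans ?_ (hstep y)
      set l' := L f (insert y A) with hl'
      have hll' : l ≤ l' := L_le_insert f A y
      have hl'd : l' ≤ l + dist (f x) (f y) := L_insert_le f y hxA
      have hE1' : E1 (insert y A) y ≤ l' + (ε * ρ y ^ 2 + Φ y) :=
        (V_L_le_add hc hκ₀ f (Finset.mem_insert_self y A)).trans (add_le_add le_rfl (hR1 y))
      have hE3' : ρ y ^ 3 ≤ E3 (insert y A) y := by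
        rw [hρ3 y]
        exact V_mono hc hκ₀ (g3_mono f)
          (Finset.singleton_subset_iff.2 (Finset.mem_insert_self _ _)) y
      have hsq : Real.sqrt l ≤ Real.sqrt l' := Real.sqrt_le_sqrt hll'
      have hsl : Real.sqrt l ^ 2 = l := Real.sq_sqrt hlnn
      have hsl' : Real.sqrt l' ^ 2 = l' := Real.sq_sqrt (hlnn.trans hll')
      have hy := young_diff (Real.sqrt_nonneg l) hsq (hρ y)
      have e4 : Real.sqrt l ^ 4 = l ^ 2 := by
        rw [show (4 : ℕ) = 2 * 2 by norm_num, pow_mul, hsl]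
      have e4' : Real.sqrt l' ^ 4 = l' ^ 2 := by
        rw [show (4 : ℕ) = 2 * 2 by norm_num, pow_mul, hsl']
      rw [hsl, hsl', e4, e4'] at hy
      have h3 : (Real.sqrt l' - Real.sqrt l) * ρ y ^ 3
          ≤ (Real.sqrt l' - Real.sqrt l) * E3 (insert y A) y :=
        mul_le_mul_of_nonneg_left hE3' (sub_nonneg.2 hsq)
      have h4 : ε * ((l' - l) * ρ y ^ 2) ≤ ε * (4 / 3 * ((Real.sqrt l' - Real.sqrt l)
          * E3 (insert y A) y) + 1 / 3 * (l' ^ 2 - l ^ 2)) :=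
        mul_le_mul_of_nonneg_left (by linarith) hε
      have h5 : (l' - l) * E1 (insert y A) y ≤ (l' - l) * (l' + (ε * ρ y ^ 2 + Φ y)) :=
        mul_le_mul_of_nonneg_left hE1' (sub_nonneg.2 hll')
      have h6 : (l' - l) ^ 2 ≤ dist (f x) (f y) ^ 2 :=
        pow_le_pow_left₀ (sub_nonneg.2 hll') (by linarith) 2
      have h7 : 0 ≤ dist (f x) (f y) ^ 2 := sq_nonneg _
      nlinarith
    -- sum up
    have hsum := Finset.sum_le_sum fun y (_ : y ∈ Finset.univ) =>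
      mul_le_mul_of_nonneg_left (hper y) (hc x y)
    have hW1 := hWspec A x
    have hE11 := hE1spec A x
    have hE31 := hE3spec A x
    have hF1 := hFspec x
    have hJ1 := hJspec x
    have hΦ1 := hΦspec x
    have hg2 : g2 f A = l ^ 2 := rfl
    have hg3 : g3 f A = l * Real.sqrt l := rfl
    have hss : Real.sqrt l * (l * Real.sqrt l) = l ^ 2 := by
      have : Real.sqrt l * Real.sqrt l = l := Real.mul_self_sqrt hlnn
      calc Real.sqrt l * (l * Real.sqrt l) = l * (Real.sqrt l * Real.sqrt l) := by ring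
        _ = l ^ 2 := by rw [this]; ring
    rw [hg2] at hW1
    rw [hg3] at hE31
    rw [← hl] at hE11
    -- expand the sum
    have hexp : ∑ y, c x y * ((W (insert y A) y - 2 * l * E1 (insert y A) y + l ^ 2)
        + 2 * (l - l₀) * Φ y
        + 2 * ε * (4 / 3 * Real.sqrt l * E3 (insert y A) y + 1 / 3 * l ^ 2
            - 5 / 3 * W (insert y A) y)
        - 2 * F y - 1 / 2 * (W (insert y A) y - 2 * l₀ * E1 (insert y A) y + l₀ ^ 2)
        - 2 * J y - 2 * dist (f x) (f y) ^ 2)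
      = (1 - 2 * ε * (5 / 3) - 1 / 2) * ∑ y, c x y * W (insert y A) y
        + (- 2 * l + l₀) * ∑ y, c x y * E1 (insert y A) y
        + (2 * ε * (4 / 3) * Real.sqrt l) * ∑ y, c x y * E3 (insert y A) y
        + (2 * (l - l₀)) * ∑ y, c x y * Φ y - 2 * ∑ y, c x y * F y - 2 * ∑ y, c x y * J y
        - 2 * ∑ y, c x y * dist (f x) (f y) ^ 2
        + (l ^ 2 + 2 * ε * (1 / 3) * l ^ 2 - 1 / 2 * l₀ ^ 2) * ∑ y, c x y := by
      simp only [Finset.mul_sum]
      rw [← Finset.sum_add_distrib, ← Finset.sum_add_distrib, ← Finset.sum_add_distrib,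
        ← Finset.sum_sub_distrib, ← Finset.sum_sub_distrib, ← Finset.sum_sub_distrib,
        ← Finset.sum_add_distrib]
      refine Finset.sum_congr rfl fun y _ => ?_
      ring
    rw [hexp, ← Finset.sum_mul] at hsum
    set C := ∑ y, c x y with hC
    set sW := ∑ y, c x y * W (insert y A) y
    set sE1 := ∑ y, c x y * E1 (insert y A) y
    set sE3 := ∑ y, c x y * E3 (insert y A) y
    set sΦ := ∑ y, c x y * Φ y
    set sF := ∑ y, c x y * F y
    set sJ := ∑ y, c x y * J y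
    set sd := ∑ y, c x y * dist (f x) (f y) ^ 2
    have hκ'x := hκ' x
    have hκ₀x := hκ₀ x
    have hE1l := hE1nn A x
    -- the reset inequality
    have hr2 : 2 * ((l - l₀) * (E1 {x} x - Φ x) - E1 {x} x ^ 2)
        ≤ - 2 * (l - l₀) * Φ x + 1 / 2 * (2 * (l - l₀) * E1 A x - (l ^ 2 - l₀ ^ 2)) := by
      have h1 : (l - l₀) * l ≤ (l - l₀) * E1 A x :=
        mul_le_mul_of_nonneg_left hE1l (sub_nonneg.2 hl₀l)
      nlinarith [sq_nonneg (2 * E1 {x} x - (l - l₀))]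
    have hr3 := mul_le_mul_of_nonneg_left hr2 hκ'x
    have hr4 := mul_le_mul_of_nonneg_left hreset hκ'x
    simp only at hr4
    have hkk : 0 ≤ κ₀ x * (l - l₀) ^ 2 := by positivity
    have e1 : l * ((C + κ₀ x) * E1 A x) = l * (κ₀ x * l + sE1) := by rw [hE11]
    have e2 : l₀ * ((C + κ₀ x) * E1 A x) = l₀ * (κ₀ x * l + sE1) := by rw [hE11]
    have e3 : ε * (Real.sqrt l * ((C + κ₀ x) * E3 A x))
        = ε * (κ₀ x * l ^ 2 + Real.sqrt l * sE3) := by
      rw [hE31, mul_add, show Real.sqrt l * (κ₀ x * (l * Real.sqrt l))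
        = κ₀ x * (Real.sqrt l * (l * Real.sqrt l)) by ring, hss]
    have e4 : ε * ((C + κ₀ x) * W A x) = ε * (κ₀ x * l ^ 2 + sW) := by rw [hW1]
    have e5 : l * ((C + (κ₀ x + κ' x)) * Φ x) = l * (κ' x * E1 {x} x + sΦ) := by rw [hΦ1]
    have e6 : l₀ * ((C + (κ₀ x + κ' x)) * Φ x) = l₀ * (κ' x * E1 {x} x + sΦ) := by rw [hΦ1]
    have key : (C + κ₀ x) * ((W A x - 2 * l * E1 A x + l ^ 2) + 2 * (l - l₀) * Φ x
        + 2 * ε * (4 / 3 * Real.sqrt l * E3 A x + 1 / 3 * l ^ 2 - 5 / 3 * W A x)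
        - 2 * F x - 1 / 2 * (W A x - 2 * l₀ * E1 A x + l₀ ^ 2) - 2 * J x)
        = ((1 - 2 * ε * (5 / 3) - 1 / 2) * sW + (-2 * l + l₀) * sE1
          + 2 * ε * (4 / 3) * Real.sqrt l * sE3 + 2 * (l - l₀) * sΦ - 2 * sF - 2 * sJ - 2 * sd
          + (l ^ 2 + 2 * ε * (1 / 3) * l ^ 2 - 1 / 2 * l₀ ^ 2) * C)
          + κ' x * (2 * ((l - l₀) * (E1 {x} x - Φ x) - E1 {x} x ^ 2))
          - 1 / 2 * (κ₀ x * (l - l₀) ^ 2) := by
      linear_combination (1 - 1 / 2) * hW1 - 2 * e1 + e2 + 8 / 3 * e3 - 10 / 3 * e4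
        + 2 * e5 - 2 * e6 - 2 * hF1 - 2 * hJ1
    show (C + κ' x + κ₀ x) * ((W A x - 2 * l * E1 A x + l ^ 2) + 2 * (l - l₀) * Φ x
        + 2 * ε * (4 / 3 * Real.sqrt l * E3 A x + 1 / 3 * l ^ 2 - 5 / 3 * W A x)
        - 2 * F x - 1 / 2 * (W A x - 2 * l₀ * E1 A x + l₀ ^ 2) - 2 * J x)
        ≤ (C + κ' x) * Bd
    nlinarith

end

end Pool.Agent.Helper983.MT
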