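import Pool.Agent.Helper983.MT.Value

set_option autoImplicit false

namespace Pool.Agent.Helper983.MT
open Finset

section
variable {S : Type} [Fintype S] [DecidableEq S]

/-- conservation of mass by symmetry -/
lemma sum_G {c : S → S → ℝ} {κ : S → ℝ} (hc : ∀ x y, 0 ≤ c x y) (hκ : ∀ x, 0 < κ x)
    (hs : ∀ x y, c x y = c y x) (b : S → ℝ) :
    ∑ x, κ x * G c κ b x = ∑ x, b x := by
  have h1 : ∀ x, κ x * G c κ b x = b x + (∑ y, c x y * G c κ b y - ∑ y, c x y * G c κ b x) := by
    intro x
    have := G_spec hc hκ b x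
    rw [← Finset.sum_mul]
    linarith
  have h2 : ∑ x, ∑ y, c x y * G c κ b y = ∑ x, ∑ y, c x y * G c κ b x := by
    rw [Finset.sum_comm]
    refine Finset.sum_congr rfl fun x _ => Finset.sum_congr rfl fun y _ => ?_
    rw [hs]
  rw [Finset.sum_congr rfl fun x _ => h1 x, Finset.sum_add_distrib, Finset.sum_sub_distrib, h2]
  ring
end

lemma geom_id (p q : ℝ) (hq : q = 1 - p) (hq0 : 0 < q) (T : ℕ) :
    ∑ t ∈ Finset.range T, (t : ℝ) * (q * p ^ t) = p / q - p ^ T * (T + p / q) := by
  induction T with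
  | zero => simp
  | succ T ih =>
    rw [Finset.sum_range_succ, ih]
    push_cast
    field_simp
    rw [hq]
    ring

section
variable {X : Type} [MetricSpace X]

/-- the killed form of the Markov type inequality -/
theorem killed {n : ℕ} (f : Fin n → X) {M : ℝ}
    (hMT : ∀ (μ : Fin n → ℝ) (A : Matrix (Fin n) (Fin n) ℝ),
        (∀ i, 0 ≤ μ i) → (∑ i, μ i = 1) → (∀ i j, 0 ≤ A i j) → (∀ i, ∑ j, A i j = 1) →
        (∀ i j, μ i * A i j = μ j * A j i) →
        ∀ (t : ℕ),
          ∑ i, ∑ j, μ i * (A ^ t) i j * dist (f i) (f j) ^ 2 ≤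
            M ^ 2 * (t : ℝ) * ∑ i, ∑ j, μ i * A i j * dist (f i) (f j) ^ 2)
    {c : Fin n → Fin n → ℝ} {κ : Fin n → ℝ} (hc : ∀ x y, 0 ≤ c x y) (hκ : ∀ x, 0 < κ x)
    (hs : ∀ x y, c x y = c y x) :
    ∑ x, κ x * G c κ (fun z => κ z * dist (f z) (f x) ^ 2) x
      ≤ M ^ 2 * ∑ x, ∑ y, c x y * dist (f x) (f y) ^ 2 := by
  classical
  rcases Nat.eq_zero_or_pos n with hn | hn
  · subst hn
    simp
  have : Nonempty (Fin n) := ⟨⟨0, hn⟩⟩
  set dg : Fin n → ℝ := fun x => ∑ y, c x y with hdg
  have hdg0 : ∀ x, 0 ≤ dg x := fun x => Finset.sum_nonneg fun y _ => hc _ _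
  obtain ⟨i₀, _, hi₀⟩ := Finset.exists_min_image Finset.univ (fun x => κ x / (dg x + 1))
    Finset.univ_nonempty
  set h := κ i₀ / (dg i₀ + 1) with hh
  have hpos : 0 < h := div_pos (hκ _) (by linarith [hdg0 i₀])
  have hle : ∀ x, h * dg x ≤ κ x := by
    intro x
    have h1 : h ≤ κ x / (dg x + 1) := hi₀ x (Finset.mem_univ x)
    have h2 : h * (dg x + 1) ≤ κ x := by
      rwa [le_div_iff₀ (by linarith [hdg0 x])] at h1
    linarith
  set p := 1 / (1 + h) with hp
  set q := h / (1 + h) with hq
  have h1h : 0 < 1 + h := by linarith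
  have hp0 : 0 < p := by positivity
  have hq0 : 0 < q := by positivity
  have hqp : q = 1 - p := by rw [hq, hp]; field_simp; ring
  have hp1 : p < 1 := by linarith
  have hpq : p / q = 1 / h := by rw [hp, hq]; field_simp
  set Kt := ∑ x, κ x with hKt
  have hKt0 : 0 < Kt := Finset.sum_pos (fun x _ => hκ x) Finset.univ_nonempty
  set A : Matrix (Fin n) (Fin n) ℝ := Matrix.of fun i j =>
    (if i = j then 1 - h * dg i / κ i else 0) + h * c i j / κ i with hA
  set μ : Fin n → ℝ := fun i => κ i / Kt with hμ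
  set En := ∑ x, ∑ y, c x y * dist (f x) (f y) ^ 2 with hEn
  have hμA : ∀ i j, κ i * A i j = (if i = j then κ i - h * dg i else 0) + h * c i j := by
    intro i j
    have := (hκ i).ne'
    simp only [hA, Matrix.of_apply]
    split_ifs
    · field_simp
    · field_simp
      ring
  have hA0 : ∀ i j, 0 ≤ A i j := by
    intro i j
    have h1 : 0 ≤ κ i * A i j := by
      rw [hμA]
      have : 0 ≤ h * c i j := mul_nonneg hpos.le (hc _ _)
      split_ifs
      · linarith [hle i]
      · linarith
    exact nonneg_of_mul_nonneg_right h1 (hκ i)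
  have hA1 : ∀ i, ∑ j, A i j = 1 := by
    intro i
    have h1 : κ i * ∑ j, A i j = κ i := by
      rw [Finset.mul_sum, Finset.sum_congr rfl fun j _ => hμA i j, Finset.sum_add_distrib,
        Finset.sum_ite_eq, if_pos (Finset.mem_univ _), ← Finset.mul_sum]
      simp only [hdg]
      ring
    have := (hκ i).ne'
    field_simp at h1
    exact h1
  have hArev : ∀ i j, μ i * A i j = μ j * A j i := by
    intro i j
    have h1 : κ i * A i j = κ j * A j i := by
      rw [hμA, hμA, hs i j]
      by_cases hij : i = j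
      · subst hij; rfl
      · rw [if_neg hij, if_neg (Ne.symm hij)]
    simp only [hμ]
    rw [div_mul_eq_mul_div, div_mul_eq_mul_div, h1]
  have hμ1 : ∑ i, μ i = 1 := by
    simp only [hμ]
    rw [← Finset.sum_div, div_self hKt0.ne']
  -- the energies
  have hat : ∀ t : ℕ, ∑ i, ∑ j, κ i * (A ^ t) i j * dist (f i) (f j) ^ 2 ≤
      M ^ 2 * t * (h * En) := by
    intro t
    have h1 := hMT μ A (fun i => (div_pos (hκ i) hKt0).le) hμ1 hA0 hA1 hArev t
    have h2 : ∀ B : Matrix (Fin n) (Fin n) ℝ, ∑ i, ∑ j, μ i * B i j * dist (f i) (f j) ^ 2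
        = (∑ i, ∑ j, κ i * B i j * dist (f i) (f j) ^ 2) / Kt := by
      intro B
      rw [Finset.sum_div]
      refine Finset.sum_congr rfl fun i _ => ?_
      rw [Finset.sum_div]
      refine Finset.sum_congr rfl fun j _ => ?_
      simp only [hμ]
      ring
    rw [h2, h2] at h1
    have h3 : ∑ i, ∑ j, κ i * A i j * dist (f i) (f j) ^ 2 = h * En := by
      rw [hEn, Finset.mul_sum]
      refine Finset.sum_congr rfl fun i _ => ?_
      rw [Finset.mul_sum]
      refine Finset.sum_congr rfl fun j _ => ?_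
      rw [hμA]
      by_cases hij : i = j
      · subst hij
        simp
      · rw [if_neg hij]
        ring
    rw [h3] at h1
    have h4 := mul_le_mul_of_nonneg_right h1 hKt0.le
    rw [div_mul_cancel₀ _ hKt0.ne'] at h4
    have h5 : M ^ 2 * (t : ℝ) * (h * En / Kt) * Kt = M ^ 2 * t * (h * En) := by
      field_simp
    linarith
  -- resolvent identity
  set u : Fin n → Fin n → ℝ := fun o => G c κ (fun z => κ z * dist (f z) (f o) ^ 2) with hu
  have hres : ∀ o x, u o x = q * dist (f x) (f o) ^ 2 + p * ∑ j, A x j * u o j := by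
    intro o x
    have h1 := G_spec hc hκ (fun z => κ z * dist (f z) (f o) ^ 2) x
    have h2 : κ x * ∑ j, A x j * u o j
        = (κ x - h * dg x) * u o x + h * ∑ j, c x j * u o j := by
      rw [Finset.mul_sum (s := Finset.univ) (f := fun j => A x j * u o j),
        Finset.mul_sum (s := Finset.univ) (f := fun j => c x j * u o j)]
      have : ∀ j, κ x * (A x j * u o j)
          = (if x = j then (κ x - h * dg x) * u o j else 0) + h * (c x j * u o j) := by
        intro j
        rw [← mul_assoc, hμA]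
        split_ifs <;> ring
      rw [Finset.sum_congr rfl fun j _ => this j, Finset.sum_add_distrib, Finset.sum_ite_eq,
        if_pos (Finset.mem_univ _)]
    have h3 : (dg x + κ x) * u o x = κ x * dist (f x) (f o) ^ 2 + ∑ j, c x j * u o j := h1
    have h4 : κ x * ((1 + h) * u o x) = κ x * (h * dist (f x) (f o) ^ 2 + ∑ j, A x j * u o j) := by
      rw [mul_add, h2]
      linear_combination h * h3
    have h5 := mul_left_cancel₀ (hκ x).ne' h4
    rw [hp, hq]
    field_simp
    linarith
  have hiter : ∀ (T : ℕ) (o x : Fin n), u o x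
      = ∑ t ∈ Finset.range T, q * p ^ t * ∑ j, (A ^ t) x j * dist (f j) (f o) ^ 2
        + p ^ T * ∑ j, (A ^ T) x j * u o j := by
    intro T
    induction T with
    | zero =>
      intro o x
      simp [Matrix.one_apply]
    | succ T ih =>
      intro o x
      rw [ih o x, Finset.sum_range_succ, add_assoc]
      congr 1
      have h1 : ∑ j, (A ^ T) x j * u o j
          = q * ∑ j, (A ^ T) x j * dist (f j) (f o) ^ 2
            + p * ∑ j, (A ^ (T + 1)) x j * u o j := by
        have h2 : ∑ j, (A ^ (T + 1)) x j * u o j = ∑ j, (A ^ T) x j * ∑ k, A j k * u o k := by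
          rw [pow_succ]
          simp only [Matrix.mul_apply, Finset.sum_mul, Finset.mul_sum]
          rw [Finset.sum_comm]
          refine Finset.sum_congr rfl fun j _ => Finset.sum_congr rfl fun k _ => ?_
          ring
        rw [h2, Finset.mul_sum, Finset.mul_sum, ← Finset.sum_add_distrib]
        refine Finset.sum_congr rfl fun j _ => ?_
        rw [hres o j]
        ring
      rw [h1, pow_succ]
      ring
  have hAT0 : ∀ (T : ℕ) (i j : Fin n), 0 ≤ (A ^ T) i j := by
    intro T
    induction T with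
    | zero =>
      intro i j
      rw [pow_zero, Matrix.one_apply]
      split_ifs <;> norm_num
    | succ T ih =>
      intro i j
      rw [pow_succ, Matrix.mul_apply]
      exact Finset.sum_nonneg fun k _ => mul_nonneg (ih _ _) (hA0 _ _)
  have hAT1 : ∀ (T : ℕ) (i : Fin n), ∑ j, (A ^ T) i j = 1 := by
    intro T
    induction T with
    | zero =>
      intro i
      simp [Matrix.one_apply]
    | succ T ih =>
      intro i
      rw [pow_succ]
      simp only [Matrix.mul_apply]
      rw [Finset.sum_comm]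
      have : ∀ y, ∑ x, (A ^ T) i y * A y x = (A ^ T) i y := by
        intro y
        rw [← Finset.mul_sum, hA1, mul_one]
      rw [Finset.sum_congr rfl fun y _ => this y, ih]
  -- uniform bound for u
  obtain ⟨Bd, hBd0, hBd⟩ : ∃ Bd : ℝ, 0 ≤ Bd ∧ ∀ o x, u o x ≤ Bd := by
    refine ⟨∑ o, ∑ x, |u o x|, Finset.sum_nonneg fun _ _ => Finset.sum_nonneg fun _ _ =>
      abs_nonneg _, fun o x => ?_⟩
    calc u o x ≤ |u o x| := le_abs_self _
      _ ≤ ∑ x, |u o x| := Finset.single_le_sum (f := fun x => |u o x|)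
          (fun _ _ => abs_nonneg _) (Finset.mem_univ x)
      _ ≤ _ := Finset.single_le_sum (f := fun o => ∑ x, |u o x|)
          (fun _ _ => Finset.sum_nonneg fun _ _ => abs_nonneg _) (Finset.mem_univ o)
  have hEn0 : 0 ≤ En := Finset.sum_nonneg fun _ _ => Finset.sum_nonneg fun _ _ =>
    mul_nonneg (hc _ _) (sq_nonneg _)
  have hfin : ∀ T : ℕ, ∑ x, κ x * u x x ≤ M ^ 2 * En + p ^ T * (Kt * Bd) := by
    intro T
    have h1 : ∑ x, κ x * u x x
        = ∑ t ∈ Finset.range T, (q * p ^ t) * (∑ i, ∑ j, κ i * (A ^ t) i j * dist (f i) (f j) ^ 2)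
          + p ^ T * ∑ x, κ x * ∑ j, (A ^ T) x j * u x j := by
      have h2 : ∀ x, κ x * u x x = ∑ t ∈ Finset.range T,
          (q * p ^ t) * (∑ j, κ x * (A ^ t) x j * dist (f x) (f j) ^ 2)
          + p ^ T * (κ x * ∑ j, (A ^ T) x j * u x j) := by
        intro x
        rw [hiter T x x, mul_add, Finset.mul_sum]
        congr 1
        · refine Finset.sum_congr rfl fun t _ => ?_
          rw [Finset.mul_sum, Finset.mul_sum, Finset.mul_sum]
          refine Finset.sum_congr rfl fun j _ => ?_
          rw [dist_comm (f j) (f x)]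
          ring
        · ring
      rw [Finset.sum_congr rfl fun x _ => h2 x, Finset.sum_add_distrib, Finset.sum_comm,
        ← Finset.mul_sum]
      congr 1
      refine Finset.sum_congr rfl fun t _ => ?_
      rw [Finset.mul_sum]
    rw [h1]
    apply add_le_add
    · calc ∑ t ∈ Finset.range T, (q * p ^ t)
            * (∑ i, ∑ j, κ i * (A ^ t) i j * dist (f i) (f j) ^ 2)
          ≤ ∑ t ∈ Finset.range T, (q * p ^ t) * (M ^ 2 * t * (h * En)) :=
            Finset.sum_le_sum fun t _ => mul_le_mul_of_nonneg_left (hat t) (by positivity)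
        _ = M ^ 2 * (h * En) * ∑ t ∈ Finset.range T, (t : ℝ) * (q * p ^ t) := by
            rw [Finset.mul_sum (s := Finset.range T)]
            exact Finset.sum_congr rfl fun t _ => by ring
        _ ≤ M ^ 2 * (h * En) * (1 / h) := by
            apply mul_le_mul_of_nonneg_left _ (by positivity)
            rw [geom_id p q hqp hq0, ← hpq]
            have : 0 ≤ p ^ T * (T + p / q) := by positivity
            linarith
        _ = M ^ 2 * En := by field_simp
    · apply mul_le_mul_of_nonneg_left _ (by positivity)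
      rw [hKt, Finset.sum_mul]
      refine Finset.sum_le_sum fun x _ => mul_le_mul_of_nonneg_left ?_ (hκ x).le
      calc ∑ j, (A ^ T) x j * u x j ≤ ∑ j, (A ^ T) x j * Bd :=
            Finset.sum_le_sum fun j _ => mul_le_mul_of_nonneg_left (hBd _ _) (hAT0 _ _ _)
        _ = Bd := by rw [← Finset.sum_mul, hAT1, one_mul]
  have hlim : Filter.Tendsto (fun T : ℕ => M ^ 2 * En + p ^ T * (Kt * Bd)) Filter.atTop
      (nhds (M ^ 2 * En + 0 * (Kt * Bd))) :=
    (tendsto_const_nhds).add ((tendsto_pow_atTop_nhds_zero_of_lt_one hp0.le hp1).mul_const _)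
  have := ge_of_tendsto' hlim hfin
  linarith

end

end Pool.Agent.Helper983.MT
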