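import Pool.Agent.Helper983.MT.StepB
import Pool.Agent.Helper983.MT.Killed

set_option autoImplicit false

namespace Pool.Agent.Helper983.MT
open Finset

section
variable {S : Type} [Fintype S] [DecidableEq S] {X : Type} [MetricSpace X]
variable {c : S → S → ℝ}

/-- One step of the multiscale recursion with costs. -/
theorem stepB (hc : ∀ x y, 0 ≤ c x y) {κ₀ : S → ℝ} (hκ₀ : ∀ x, 0 < κ₀ x)
    (f : S → X) (ρ : S → ℝ) (hρ : ∀ x, 0 ≤ ρ x)
    (hρ3 : ∀ x, ρ x ^ 3 = V c κ₀ (g3 f) {x} x) {K : ℝ}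
    (hkill : ∀ κ : S → ℝ, (∀ x, 0 < κ x) →
      ∑ x, κ x * G c κ (fun z => κ z * dist (f z) (f x) ^ 2) x
        ≤ K * ∑ x, ∑ y, c x y * dist (f x) (f y) ^ 2)
    {θ : ℝ} (hθ0 : 0 < θ) (hθα : θ ^ (1 / (2 * 512 ^ 2) : ℝ) ≤ 1 / 512)
    {ε : ℝ} (hε : 0 < ε) {Vv : ℝ}
    (h : ∃ κ' : S → ℝ, (∀ x, 0 ≤ κ' x) ∧
      (∀ x, V c (fun x => κ₀ x + κ' x) (L f) {x} x ≤ ε * ρ x ^ 2) ∧
      ε ^ 2 * ∑ x, κ' x * ρ x ^ 4 ≤ Vv) :
    ∃ κ' : S → ℝ, (∀ x, 0 ≤ κ' x) ∧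
      (∀ x, V c (fun x => κ₀ x + κ' x) (L f) {x} x ≤ (512 * ε) * ρ x ^ 2) ∧
      (512 * ε) ^ 2 * ∑ x, κ' x * ρ x ^ 4
        ≤ Vv / 2 + 512 ^ 2 * ((1 + K / (θ * 64 ^ 2)) * ∑ x, ∑ y, c x y * dist (f x) (f y) ^ 2) := by
  classical
  obtain ⟨κ', hκ', hfeas, hcost⟩ := h
  set En := ∑ x, ∑ y, c x y * dist (f x) (f y) ^ 2 with hEn
  set r : S → ℝ := fun x => ε * ρ x ^ 2 with hr
  have hr0 : ∀ x, 0 ≤ r x := fun x => mul_nonneg hε.le (sq_nonneg _)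
  have hκ : ∀ x, 0 < κ₀ x + κ' x := fun x => add_pos_of_pos_of_nonneg (hκ₀ x) (hκ' x)
  set hh : S → ℝ := fun x => G c (fun x => κ₀ x + κ' x)
      (fun z => (κ₀ z + κ' z) * dist (f z) (f x) ^ 2) x with hhh
  have hh0 : ∀ x, 0 ≤ hh x := fun x =>
    G_nonneg hc hκ (fun z => mul_nonneg (hκ z).le (sq_nonneg _)) x
  set Bad : S → Prop := fun x => θ * (64 * r x) ^ 2 ≤ hh x with hBaddef
  set α : ℝ := 1 / (2 * 512 ^ 2) with hα
  set κ2 : S → ℝ := fun x => kJ c f r x + α * κ' x + (if Bad x then κ' x else 0) with hκ2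
  have hkJ0 : ∀ x, 0 ≤ kJ c f r x := kJ_nonneg hc f hr0
  have hα0 : 0 < α := by rw [hα]; norm_num
  have hα1 : α ≤ 1 := by rw [hα]; norm_num
  have hite : ∀ x, 0 ≤ (if Bad x then κ' x else 0) := by
    intro x
    split_ifs
    · exact hκ' x
    · exact le_rfl
  refine ⟨κ2, fun x => ?_, ?_, ?_⟩
  · have := hkJ0 x
    have := mul_nonneg hα0.le (hκ' x)
    have := hite x
    simp only [hκ2]
    linarith
  · refine stepB_feas hc hκ₀ hκ' f ρ hρ hρ3 hε hfeas hα0 hα1 hθ0 hθα Bad ?_ κ2 ?_ ?_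
    · intro x hx
      simp only [hBaddef, not_le] at hx
      exact hx
    · intro x
      have := hite x
      simp only [hκ2]
      linarith
    · intro x hx
      have := hkJ0 x
      have := mul_nonneg hα0.le (hκ' x)
      simp only [hκ2, if_pos hx]
      linarith
  · have hsq : ∀ x, ε ^ 2 * ρ x ^ 4 = r x ^ 2 := fun x => by rw [hr]; ring
    have e1 : (512 * ε) ^ 2 * ∑ x, κ2 x * ρ x ^ 4
        = 512 ^ 2 * (∑ x, kJ c f r x * r x ^ 2 + α * (ε ^ 2 * ∑ x, κ' x * ρ x ^ 4)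
          + ∑ x, (if Bad x then κ' x else 0) * r x ^ 2) := by
      rw [Finset.mul_sum, Finset.mul_sum, Finset.mul_sum, ← Finset.sum_add_distrib,
        ← Finset.sum_add_distrib, Finset.mul_sum]
      refine Finset.sum_congr rfl fun x _ => ?_
      simp only [← hsq, hκ2]
      ring
    rw [e1]
    have h1 : ∑ x, kJ c f r x * r x ^ 2 ≤ En :=
      Finset.sum_le_sum fun x _ => kJ_mul_sq hc f hr0 x
    have h2 : ∑ x, (if Bad x then κ' x else 0) * r x ^ 2 ≤ (K * En) / (θ * 64 ^ 2) := by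
      have hk := hkill (fun x => κ₀ x + κ' x) hκ
      refine le_trans ?_ (div_le_div_of_nonneg_right hk (by positivity))
      rw [Finset.sum_div]
      refine Finset.sum_le_sum fun x _ => ?_
      rw [le_div_iff₀ (by positivity)]
      split_ifs with hb
      · have h3 : θ * (64 * r x) ^ 2 ≤ hh x := hb
        have h4 : κ' x * (θ * (64 * r x) ^ 2) ≤ κ' x * hh x :=
          mul_le_mul_of_nonneg_left h3 (hκ' x)
        have h5 : 0 ≤ κ₀ x * hh x := mul_nonneg (hκ₀ x).le (hh0 x)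
        have h6 : (κ₀ x + κ' x) * hh x = κ₀ x * hh x + κ' x * hh x := by ring
        show κ' x * r x ^ 2 * (θ * 64 ^ 2) ≤ (κ₀ x + κ' x) * hh x
        nlinarith
      · rw [zero_mul, zero_mul]
        exact mul_nonneg (hκ x).le (hh0 x)
    have h3 : α * (ε ^ 2 * ∑ x, κ' x * ρ x ^ 4) ≤ α * Vv :=
      mul_le_mul_of_nonneg_left hcost hα0.le
    have h4 : (512 : ℝ) ^ 2 * (α * Vv) = Vv / 2 := by rw [hα]; ring
    have h5 : (1 + K / (θ * 64 ^ 2)) * En = En + K * En / (θ * 64 ^ 2) := by ring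
    rw [h5]
    nlinarith

/-- crude feasibility at every scale -/
theorem crude (hc : ∀ x y, 0 ≤ c x y) {κ₀ : S → ℝ} (hκ₀ : ∀ x, 0 < κ₀ x)
    (f : S → X) (ρ : S → ℝ) (hρ : ∀ x, 0 ≤ ρ x)
    (hρ3 : ∀ x, ρ x ^ 3 = V c κ₀ (g3 f) {x} x) :
    ∃ B : ℝ, 0 ≤ B ∧ ∀ ε : ℝ, 0 < ε → ε ≤ 1 → ∃ κ' : S → ℝ, (∀ x, 0 ≤ κ' x) ∧
      (∀ x, V c (fun x => κ₀ x + κ' x) (L f) {x} x ≤ ε * ρ x ^ 2) ∧
      ε ^ 2 * ∑ x, κ' x * ρ x ^ 4 ≤ B := by
  set Lu := L f Finset.univ with hLu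
  have hLu0 : 0 ≤ Lu := L_nonneg f _
  set dg : S → ℝ := fun x => ∑ y, c x y with hdg
  have hdg0 : ∀ x, 0 ≤ dg x := fun x => Finset.sum_nonneg fun y _ => hc _ _
  refine ⟨∑ x, dg x * Lu * ρ x ^ 2, Finset.sum_nonneg fun x _ =>
    mul_nonneg (mul_nonneg (hdg0 x) hLu0) (sq_nonneg _), ?_⟩
  intro ε hε hε1
  have hκ'0 : ∀ x, 0 ≤ dg x * Lu / (ε * ρ x ^ 2) := fun x =>
    div_nonneg (mul_nonneg (hdg0 x) hLu0) (mul_nonneg hε.le (sq_nonneg _))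
  refine ⟨fun x => dg x * Lu / (ε * ρ x ^ 2), hκ'0, ?_, ?_⟩
  · intro x
    have hκ : ∀ x, 0 < κ₀ x + dg x * Lu / (ε * ρ x ^ 2) := fun x =>
      add_pos_of_pos_of_nonneg (hκ₀ x) (hκ'0 x)
    set Vk := V c (fun x => κ₀ x + dg x * Lu / (ε * ρ x ^ 2)) (L f) with hVk
    have hspec := V_spec hc hκ (L f) {x} x
    simp only [← hVk] at hspec
    rw [L_singleton, mul_zero, zero_add] at hspec
    have hle : ∑ y, c x y * Vk (insert y {x}) y ≤ dg x * Lu := by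
      rw [hdg, Finset.sum_mul]
      exact Finset.sum_le_sum fun y _ => mul_le_mul_of_nonneg_left
        (V_le_univ hc hκ (L_mono' f) _ _) (hc _ _)
    have hnn : 0 ≤ Vk {x} x := (L_nonneg f _).trans (le_V hc hκ (L_mono' f) _ _)
    rcases (hρ x).eq_or_lt with h0 | hpos
    · have h1 := V_anti hc hκ₀ (κ₂ := fun x => κ₀ x + dg x * Lu / (ε * ρ x ^ 2))
        (fun x => le_add_of_nonneg_right (hκ'0 x)) (L_mono' f) {x} x
      have h2 := R1_le hc hκ₀ f (hρ x) (hρ3 x)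
      rw [← h0] at h2 ⊢
      norm_num at h2 ⊢
      linarith
    · have hk0 := hκ₀ x
      have hd := hdg0 x
      have hερ : 0 < ε * ρ x ^ 2 := by positivity
      have h1 : (dg x * Lu / (ε * ρ x ^ 2)) * Vk {x} x ≤ dg x * Lu := by
        have h2 : 0 ≤ (dg x + κ₀ x) * Vk {x} x := by positivity
        have h3 : (∑ y, c x y + (κ₀ x + dg x * Lu / (ε * ρ x ^ 2))) * Vk {x} x
            = (dg x + κ₀ x) * Vk {x} x + (dg x * Lu / (ε * ρ x ^ 2)) * Vk {x} x := by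
          simp only [hdg]; ring
        linarith
      rcases (mul_nonneg hd hLu0).eq_or_lt with h2 | h2
      · rw [← h2] at hle
        have h3 : (∑ y, c x y + (κ₀ x + dg x * Lu / (ε * ρ x ^ 2))) * Vk {x} x ≤ 0 := by linarith
        have h4 : 0 < ∑ y, c x y + (κ₀ x + dg x * Lu / (ε * ρ x ^ 2)) :=
          add_pos_of_nonneg_of_pos hd (hκ x)
        have h5 : Vk {x} x ≤ 0 := by
          by_contra hcon
          push Not at hcon
          have := mul_pos h4 hcon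
          linarith
        linarith
      · rw [div_mul_eq_mul_div, div_le_iff₀ hερ] at h1
        exact le_of_mul_le_mul_left h1 h2
  · rw [Finset.mul_sum]
    refine Finset.sum_le_sum fun x _ => ?_
    rcases (hρ x).eq_or_lt with h0 | hpos
    · rw [← h0]; simp
    · have e : ε ^ 2 * (dg x * Lu / (ε * ρ x ^ 2) * ρ x ^ 4) = ε * (dg x * Lu * ρ x ^ 2) := by
        field_simp
      rw [e]
      have : 0 ≤ dg x * Lu * ρ x ^ 2 := mul_nonneg (mul_nonneg (hdg0 x) hLu0) (sq_nonneg _)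
      nlinarith

/-- the network form of the maximal inequality -/
theorem network (K : ℝ) : ∃ C : ℝ, ∀ {S : Type} [Fintype S] [DecidableEq S]
    {X : Type} [MetricSpace X] (c : S → S → ℝ) (_ : ∀ x y, 0 ≤ c x y)
    (_ : ∀ x y, c x y = c y x) (κ₀ : S → ℝ) (_ : ∀ x, 0 < κ₀ x) (f : S → X)
    (_ : ∀ κ : S → ℝ, (∀ x, 0 < κ x) →
      ∑ x, κ x * G c κ (fun z => κ z * dist (f z) (f x) ^ 2) x
        ≤ K * ∑ x, ∑ y, c x y * dist (f x) (f y) ^ 2),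
    ∑ x, κ₀ x * V c κ₀ (g2 f) {x} x ≤ C * ∑ x, ∑ y, c x y * dist (f x) (f y) ^ 2 := by
  obtain ⟨θ, hθ0, hθα⟩ : ∃ θ : ℝ, 0 < θ ∧ θ ^ (1 / (2 * 512 ^ 2) : ℝ) ≤ 1 / 512 := by
    refine ⟨(1 / 512 : ℝ) ^ (2 * 512 ^ 2 : ℝ), Real.rpow_pos_of_pos (by norm_num) _, ?_⟩
    rw [← Real.rpow_mul (by norm_num)]
    have : (2 * 512 ^ 2 : ℝ) * (1 / (2 * 512 ^ 2)) = 1 := by norm_num
    rw [this, Real.rpow_one]
  set C₁ : ℝ := 512 ^ 2 * (1 + K / (θ * 64 ^ 2)) with hC₁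
  refine ⟨8 * ((40 / 3) ^ 2 * (2 * C₁)) + 8, ?_⟩
  intro S _ _ X _ c hc hs κ₀ hκ₀ f hkill
  set En := ∑ x, ∑ y, c x y * dist (f x) (f y) ^ 2 with hEn
  have hw0 : ∀ x, 0 ≤ V c κ₀ (g3 f) {x} x := fun x =>
    (mul_nonneg (L_nonneg f _) (Real.sqrt_nonneg _)).trans (le_V hc hκ₀ (g3_mono f) _ _)
  set ρ : S → ℝ := fun x => (V c κ₀ (g3 f) {x} x) ^ (1 / 3 : ℝ) with hρdef
  have hρ : ∀ x, 0 ≤ ρ x := fun x => Real.rpow_nonneg (hw0 x) _
  have hρ3 : ∀ x, ρ x ^ 3 = V c κ₀ (g3 f) {x} x := by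
    intro x
    rw [hρdef]
    simp only
    rw [← Real.rpow_natCast, ← Real.rpow_mul (hw0 x)]
    norm_num
  obtain ⟨B, hB0, hB⟩ := crude hc hκ₀ f ρ hρ hρ3
  have hiter : ∀ (J : ℕ) (ε : ℝ), 0 < ε → ε * 512 ^ J ≤ 1 → ∃ κ' : S → ℝ, (∀ x, 0 ≤ κ' x) ∧
      (∀ x, V c (fun x => κ₀ x + κ' x) (L f) {x} x ≤ (ε * 512 ^ J) * ρ x ^ 2) ∧
      (ε * 512 ^ J) ^ 2 * ∑ x, κ' x * ρ x ^ 4 ≤ B / 2 ^ J + 2 * (C₁ * En) := by
    intro J
    induction J with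
    | zero =>
      intro ε hε hε1
      rw [pow_zero, mul_one] at hε1 ⊢
      obtain ⟨κ', h1, h2, h3⟩ := hB ε hε hε1
      refine ⟨κ', h1, h2, h3.trans ?_⟩
      have hEn0 : 0 ≤ En := Finset.sum_nonneg fun _ _ => Finset.sum_nonneg fun _ _ =>
        mul_nonneg (hc _ _) (sq_nonneg _)
      have hCE : 0 ≤ C₁ * En := by
        have hk := hkill κ₀ hκ₀
        have hk0 : 0 ≤ ∑ x, κ₀ x * G c κ₀ (fun z => κ₀ z * dist (f z) (f x) ^ 2) x :=
          Finset.sum_nonneg fun x _ => mul_nonneg (hκ₀ x).le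
            (G_nonneg hc hκ₀ (fun z => mul_nonneg (hκ₀ z).le (sq_nonneg _)) x)
        have hKE : 0 ≤ K * En := hk0.trans hk
        have e : C₁ * En = 512 ^ 2 * (En + K * En / (θ * 64 ^ 2)) := by rw [hC₁]; ring
        rw [e]
        positivity
      simp only [pow_zero, div_one]
      linarith
    | succ J ih =>
      intro ε hε hε1
      have hpos : 0 < ε * 512 ^ J := by positivity
      have hle : ε * 512 ^ J ≤ 1 := by
        rw [pow_succ] at hε1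
        nlinarith
      have h1 := stepB hc hκ₀ f ρ hρ hρ3 hkill hθ0 hθα hpos (ih ε hε hle)
      have e1 : 512 * (ε * 512 ^ J) = ε * 512 ^ (J + 1) := by ring
      rw [e1] at h1
      obtain ⟨κ', h2, h3, h4⟩ := h1
      refine ⟨κ', h2, h3, h4.trans (le_of_eq ?_)⟩
      rw [← hEn, pow_succ, hC₁]
      field_simp
      ring
  have hmain : ∀ J : ℕ, ∑ x, κ₀ x * V c κ₀ (g2 f) {x} x
      ≤ 8 * ((40 / 3) ^ 2 * (B / 2 ^ J + 2 * (C₁ * En))) + 8 * En := by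
    intro J
    have h512 : (0 : ℝ) < 512 ^ J := by positivity
    obtain ⟨κ', h2, h3, h4⟩ := hiter J (3 / 40 / 512 ^ J) (by positivity)
      (by rw [div_mul_cancel₀ _ h512.ne']; norm_num)
    rw [div_mul_cancel₀ _ h512.ne'] at h3 h4
    have h5 := fun x => claimA_point hc hκ₀ h2 f ρ hρ hρ3 (ε := 3 / 40) (by norm_num)
      le_rfl h3 x
    have h6 : ∑ x, κ₀ x * V c κ₀ (g2 f) {x} x
        ≤ ∑ x, κ₀ x * (8 * G c κ₀ (fun x => κ' x * V c κ₀ (L f) {x} x ^ 2) x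
      + 8 * G c κ₀ (fun x => ∑ y, c x y * dist (f x) (f y) ^ 2) x) :=
      Finset.sum_le_sum fun x _ => mul_le_mul_of_nonneg_left (h5 x) (hκ₀ x).le
    have h7 : ∑ x, κ₀ x * (8 * G c κ₀ (fun x => κ' x * V c κ₀ (L f) {x} x ^ 2) x
      + 8 * G c κ₀ (fun x => ∑ y, c x y * dist (f x) (f y) ^ 2) x)
        = 8 * ∑ x, κ' x * V c κ₀ (L f) {x} x ^ 2 + 8 * En := by
      rw [← sum_G hc hκ₀ hs (fun x => κ' x * V c κ₀ (L f) {x} x ^ 2), hEn,
        ← sum_G hc hκ₀ hs (fun x => ∑ y, c x y * dist (f x) (f y) ^ 2), Finset.mul_sum,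
        Finset.mul_sum, ← Finset.sum_add_distrib]
      exact Finset.sum_congr rfl fun x _ => by ring
    have h8 : ∑ x, κ' x * V c κ₀ (L f) {x} x ^ 2 ≤ ∑ x, κ' x * ρ x ^ 4 := by
      refine Finset.sum_le_sum fun x _ => mul_le_mul_of_nonneg_left ?_ (h2 x)
      have h9 := R1_le hc hκ₀ f (hρ x) (hρ3 x)
      have h10 : 0 ≤ V c κ₀ (L f) {x} x :=
        (L_nonneg f _).trans (le_V hc hκ₀ (L_mono' f) _ _)
      calc V c κ₀ (L f) {x} x ^ 2 ≤ (ρ x ^ 2) ^ 2 := pow_le_pow_left₀ h10 h9 2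
        _ = ρ x ^ 4 := by ring
    have h11 : ∑ x, κ' x * ρ x ^ 4 ≤ (40 / 3) ^ 2 * (B / 2 ^ J + 2 * (C₁ * En)) := by
      nlinarith
    linarith
  have hlim : Filter.Tendsto (fun J : ℕ => 8 * ((40 / 3) ^ 2 * (B / 2 ^ J + 2 * (C₁ * En)))
      + 8 * En) Filter.atTop (nhds (8 * ((40 / 3) ^ 2 * (0 + 2 * (C₁ * En))) + 8 * En)) := by
    apply Filter.Tendsto.add_const
    apply Filter.Tendsto.const_mul
    apply Filter.Tendsto.const_mul
    apply Filter.Tendsto.add_const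
    have h1 : (fun J : ℕ => B / 2 ^ J) = fun J : ℕ => B * (1 / 2 : ℝ) ^ J := by
      funext J
      rw [one_div, inv_pow]
      rfl
    rw [h1, ← mul_zero B]
    exact (tendsto_pow_atTop_nhds_zero_of_lt_one (by norm_num) (by norm_num)).const_mul B
  have := ge_of_tendsto' hlim hmain
  refine this.trans (le_of_eq ?_)
  ring

end

end Pool.Agent.Helper983.MT
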