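import Pool.Agent.Helper983.MT.Net

set_option autoImplicit false

namespace Pool.Agent.Helper983.MT
open Finset

section paths
variable {n : ℕ}

/-- path sums from a fixed starting point -/
noncomputable def PS (A : Matrix (Fin n) (Fin n) ℝ) (t : ℕ) (x : Fin n)
    (H : (Fin (t + 1) → Fin n) → ℝ) : ℝ :=
  ∑ w : Fin t → Fin n,
    (∏ k : Fin t, A ((Fin.cons x w : Fin (t + 1) → Fin n) k.castSucc)
      ((Fin.cons x w : Fin (t + 1) → Fin n) k.succ)) * H (Fin.cons x w)

lemma sum_paths (A : Matrix (Fin n) (Fin n) ℝ) (μ : Fin n → ℝ) (t : ℕ)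
    (H : (Fin (t + 1) → Fin n) → ℝ) :
    ∑ w : Fin (t + 1) → Fin n, μ (w 0) * (∏ k : Fin t, A (w k.castSucc) (w k.succ)) * H w
      = ∑ x, μ x * PS A t x H := by
  rw [← (Fin.consEquiv (fun _ : Fin (t + 1) => Fin n)).sum_comp, Fintype.sum_prod_type]
  refine Finset.sum_congr rfl fun x _ => ?_
  rw [PS, Finset.mul_sum]
  refine Finset.sum_congr rfl fun w _ => ?_
  simp only [Fin.consEquiv_apply, Fin.cons_zero]
  rw [mul_assoc]
  rfl

lemma PS_succ (A : Matrix (Fin n) (Fin n) ℝ) (t : ℕ) (x : Fin n)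
    (H : (Fin (t + 1 + 1) → Fin n) → ℝ) :
    PS A (t + 1) x H = ∑ y, A x y * PS A t y (fun w => H (Fin.cons x w)) := by
  rw [PS, ← (Fin.consEquiv (fun _ : Fin (t + 1) => Fin n)).sum_comp, Fintype.sum_prod_type]
  refine Finset.sum_congr rfl fun y _ => ?_
  rw [PS, Finset.mul_sum]
  refine Finset.sum_congr rfl fun w _ => ?_
  rw [Fin.prod_univ_succ]
  simp only [Fin.consEquiv_apply, Fin.castSucc_zero, Fin.cons_zero, Fin.cons_succ,
    ← Fin.succ_castSucc]
  rw [mul_assoc]
  rfl

lemma PS_pow (A : Matrix (Fin n) (Fin n) ℝ) (h : Fin n → ℝ) : ∀ (t : ℕ) (x : Fin n),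
    PS A t x (fun w => h (w (Fin.last t))) = ∑ j, (A ^ t) x j * h j := by
  intro t
  induction t with
  | zero =>
    intro x
    simp [PS, Matrix.one_apply]
  | succ t ih =>
    intro x
    rw [PS_succ]
    have : ∀ y, PS A t y (fun w => h ((Fin.cons x w : Fin (t + 1 + 1) → Fin n)
        (Fin.last (t + 1)))) = ∑ j, (A ^ t) y j * h j := by
      intro y
      rw [← ih y]
      congr 1
    rw [Finset.sum_congr rfl fun y _ => by rw [this y]]
    rw [pow_succ']
    simp only [Matrix.mul_apply, Finset.sum_mul, Finset.mul_sum]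
    rw [Finset.sum_comm]
    refine Finset.sum_congr rfl fun j _ => Finset.sum_congr rfl fun k _ => ?_
    ring

lemma PS_le_PS {A : Matrix (Fin n) (Fin n) ℝ} (hA : ∀ i j, 0 ≤ A i j) (t : ℕ) (x : Fin n)
    {H H' : (Fin (t + 1) → Fin n) → ℝ} (h : ∀ w, w 0 = x → H w ≤ H' w) :
    PS A t x H ≤ PS A t x H' := by
  refine Finset.sum_le_sum fun w _ => mul_le_mul_of_nonneg_left (h _ ?_) ?_
  · rw [Fin.cons_zero]
  · exact Finset.prod_nonneg fun k _ => hA _ _

variable {X : Type} [MetricSpace X]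

/-- recursive path sums of the squared diameter of the visited set -/
noncomputable def Pk (A : Matrix (Fin n) (Fin n) ℝ) (f : Fin n → X) :
    ℕ → Finset (Fin n) → Fin n → ℝ
  | 0, B, _ => g2 f B
  | k + 1, B, x => ∑ y, A x y * Pk A f k (insert y B) y

lemma PS_le_Pk {A : Matrix (Fin n) (Fin n) ℝ} (hA : ∀ i j, 0 ≤ A i j) (f : Fin n → X) :
    ∀ (t : ℕ) (B : Finset (Fin n)) (x : Fin n), x ∈ B →
      ∀ H : (Fin (t + 1) → Fin n) → ℝ,
        (∀ w, w 0 = x → H w ≤ g2 f (B ∪ Finset.image w Finset.univ)) →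
        PS A t x H ≤ Pk A f t B x := by
  intro t
  induction t with
  | zero =>
    intro B x hx H hH
    have h1 : PS A 0 x H = H (Fin.cons x (default : Fin 0 → Fin n)) := by
      simp [PS]
    rw [h1]
    refine (hH _ (by rw [Fin.cons_zero])).trans (g2_mono f _ _ ?_)
    intro z hz
    rw [Finset.mem_union, Finset.mem_image] at hz
    rcases hz with hz | ⟨k, _, rfl⟩
    · exact hz
    · have : k = 0 := Fin.fin_one_eq_zero k
      rw [this, Fin.cons_zero]
      exact hx
  | succ t ih =>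
    intro B x hx H hH
    rw [PS_succ, Pk]
    refine Finset.sum_le_sum fun y _ => mul_le_mul_of_nonneg_left ?_ (hA _ _)
    refine ih (insert y B) y (Finset.mem_insert_self _ _) _ fun w hw => ?_
    refine (hH _ (by rw [Fin.cons_zero])).trans (g2_mono f _ _ ?_)
    intro z hz
    rw [Finset.mem_union, Finset.mem_image] at hz
    rw [Finset.mem_union, Finset.mem_insert]
    rcases hz with hz | ⟨k, _, rfl⟩
    · exact Or.inl (Or.inr hz)
    · rcases Fin.eq_zero_or_eq_succ k with rfl | ⟨k', rfl⟩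
      · rw [Fin.cons_zero]
        exact Or.inl (Or.inr hx)
      · rw [Fin.cons_succ]
        exact Or.inr (Finset.mem_image_of_mem _ (Finset.mem_univ _))

lemma V_ge_Pk {A : Matrix (Fin n) (Fin n) ℝ} (hA : ∀ i j, 0 ≤ A i j)
    (hA1 : ∀ i, ∑ j, A i j = 1) {μ : Fin n → ℝ} (hμ : ∀ i, 0 ≤ μ i)
    (hrev : ∀ i j, μ i * A i j = μ j * A j i) (f : Fin n → X) {T : ℝ} (hT : 0 < T) :
    ∀ (k : ℕ) (B : Finset (Fin n)) (x : Fin n), 0 < μ x →
      (T / (T + 1)) ^ k * Pk A f k B x
        ≤ V (fun x y => μ x * A x y) (fun x => if μ x = 0 then 1 else μ x / T) (g2 f) B x := by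
  have hc : ∀ x y, 0 ≤ (fun x y => μ x * A x y) x y := fun x y => mul_nonneg (hμ x) (hA x y)
  have hκ : ∀ x, 0 < (fun x => if μ x = 0 then 1 else μ x / T) x := by
    intro x
    simp only
    split_ifs with h
    · norm_num
    · exact div_pos (lt_of_le_of_ne (hμ x) (Ne.symm h)) hT
  intro k
  induction k with
  | zero =>
    intro B x _
    rw [pow_zero, one_mul, Pk]
    exact le_V hc hκ (g2_mono f) B x
  | succ k ih =>
    intro B x hx
    have hspec := V_spec hc hκ (g2 f) B x
    have hmu : μ x ≠ 0 := hx.ne'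
    simp only [if_neg hmu, ← Finset.mul_sum, hA1, mul_one] at hspec
    set Vv := V (fun x y => μ x * A x y) (fun x => if μ x = 0 then 1 else μ x / T) (g2 f) with hVv
    have hg : 0 ≤ g2 f B := sq_nonneg _
    have h1 : ∑ y, μ x * A x y * ((T / (T + 1)) ^ k * Pk A f k (insert y B) y)
        ≤ ∑ y, μ x * A x y * Vv (insert y B) y := by
      refine Finset.sum_le_sum fun y _ => ?_
      rcases (hc x y).eq_or_lt with h2 | h2
      · simp only at h2
        rw [← h2, zero_mul, zero_mul]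
      · refine mul_le_mul_of_nonneg_left (ih _ _ ?_) (hc x y)
        simp only at h2
        rw [hrev] at h2
        refine lt_of_le_of_ne (hμ y) fun h => ?_
        rw [← h, zero_mul] at h2
        exact lt_irrefl _ h2
    have h3 : ∑ y, μ x * A x y * ((T / (T + 1)) ^ k * Pk A f k (insert y B) y)
        = μ x * ((T / (T + 1)) ^ k * Pk A f (k + 1) B x) := by
      rw [Pk, Finset.mul_sum, Finset.mul_sum]
      refine Finset.sum_congr rfl fun y _ => ?_
      ring
    rw [h3] at h1
    have h4 : 0 ≤ μ x / T * g2 f B := mul_nonneg (div_pos hx hT).le hg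
    have h5 : μ x * ((T / (T + 1)) ^ k * Pk A f (k + 1) B x) ≤ (μ x + μ x / T) * Vv B x := by
      linarith
    have h6 : (μ x + μ x / T) * Vv B x = μ x * ((T + 1) / T * Vv B x) := by
      field_simp
    rw [h6] at h5
    have h7 := le_of_mul_le_mul_left h5 hx
    have h8 : (T / (T + 1)) ^ (k + 1) * Pk A f (k + 1) B x
        = T / (T + 1) * ((T / (T + 1)) ^ k * Pk A f (k + 1) B x) := by ring
    rw [h8]
    have h9 : T / (T + 1) * ((T + 1) / T * Vv B x) = Vv B x := by field_simp
    calc T / (T + 1) * ((T / (T + 1)) ^ k * Pk A f (k + 1) B x)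
        ≤ T / (T + 1) * ((T + 1) / T * Vv B x) :=
          mul_le_mul_of_nonneg_left h7 (by positivity)
      _ = Vv B x := h9

end paths

end Pool.Agent.Helper983.MT
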