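import Pool.Agent.Helper983.MT.ClaimA

set_option autoImplicit false

namespace Pool.Agent.Helper983.MT
open Finset

section
variable {S : Type} [Fintype S] [DecidableEq S] {X : Type} [MetricSpace X]
variable {c : S → S → ℝ}

/-- the square of the cube root of a superharmonic function is superharmonic -/
lemma super_sq (hc : ∀ x y, 0 ≤ c x y) {κ : S → ℝ} (hκ : ∀ x, 0 < κ x) {ρ : S → ℝ}
    (hρ : ∀ x, 0 ≤ ρ x)
    (h3 : ∀ y, ∑ z, c y z * ρ z ^ 3 ≤ (∑ z, c y z + κ y) * ρ y ^ 3) (y : S) :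
    ∑ z, c y z * ρ z ^ 2 ≤ (∑ z, c y z + κ y) * ρ y ^ 2 := by
  have hs : 0 ≤ ∑ z, c y z := Finset.sum_nonneg fun z _ => hc _ _
  have hk := hκ y
  rcases (hρ y).eq_or_lt with h0 | hpos
  · have h1 := h3 y
    rw [← h0] at h1 ⊢
    have h2 : ∀ z ∈ Finset.univ, c y z * ρ z ^ 3 = 0 := by
      have hnn : ∀ z ∈ Finset.univ, 0 ≤ c y z * ρ z ^ 3 := fun z _ =>
        mul_nonneg (hc _ _) (pow_nonneg (hρ z) 3)
      rw [← Finset.sum_eq_zero_iff_of_nonneg hnn]
      apply le_antisymm _ (Finset.sum_nonneg hnn)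
      simpa using h1
    have h4 : ∑ z, c y z * ρ z ^ 2 = 0 := by
      apply Finset.sum_eq_zero
      intro z hz
      rcases mul_eq_zero.1 (h2 z hz) with h5 | h5
      · rw [h5, zero_mul]
      · rw [pow_eq_zero_iff (by norm_num)] at h5
        rw [h5]; simp
    rw [h4]
    simp
  · have h1 : 3 * (ρ y * ∑ z, c y z * ρ z ^ 2)
        ≤ 2 * ∑ z, c y z * ρ z ^ 3 + (∑ z, c y z) * ρ y ^ 3 := by
      rw [Finset.mul_sum, Finset.mul_sum, Finset.mul_sum, Finset.sum_mul,
        ← Finset.sum_add_distrib]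
      refine Finset.sum_le_sum fun z _ => ?_
      have := mul_le_mul_of_nonneg_left (young32 (hρ z) (hρ y)) (hc y z)
      linarith
    have h2 := h3 y
    have h5 : ρ y * ∑ z, c y z * ρ z ^ 2 ≤ ρ y * ((∑ z, c y z + κ y) * ρ y ^ 2) := by
      have : 0 ≤ κ y * ρ y ^ 3 := by positivity
      nlinarith
    exact le_of_mul_le_mul_left h5 hpos

/-- power of a superharmonic function -/
lemma super_rpow (hc : ∀ x y, 0 ≤ c x y) {φ : S → ℝ} (hφ : ∀ x, 0 ≤ φ x) {α : ℝ}
    (hα0 : 0 < α) (hα1 : α ≤ 1) {y : S} {k : ℝ} (hk : 0 < k)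
    (h : ∑ z, c y z * φ z ≤ (∑ z, c y z + k) * φ y) :
    ∑ z, c y z * φ z ^ α ≤ (∑ z, c y z + α * k) * φ y ^ α := by
  have hs : 0 ≤ ∑ z, c y z := Finset.sum_nonneg fun z _ => hc _ _
  rcases (hφ y).eq_or_lt with h0 | hpos
  · rw [← h0] at h
    have h2 : ∀ z ∈ Finset.univ, c y z * φ z = 0 := by
      have hnn : ∀ z ∈ Finset.univ, 0 ≤ c y z * φ z := fun z _ =>
        mul_nonneg (hc _ _) (hφ z)
      rw [← Finset.sum_eq_zero_iff_of_nonneg hnn]
      apply le_antisymm _ (Finset.sum_nonneg hnn)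
      simpa using h
    have h4 : ∑ z, c y z * φ z ^ α = 0 := by
      apply Finset.sum_eq_zero
      intro z hz
      rcases mul_eq_zero.1 (h2 z hz) with h5 | h5
      · rw [h5, zero_mul]
      · rw [h5, Real.zero_rpow hα0.ne', mul_zero]
    rw [h4]
    have : 0 ≤ φ y ^ α := Real.rpow_nonneg (hφ y) α
    have h6 : 0 ≤ α * k := by positivity
    positivity
  · have hyoung : ∀ z, φ y ^ (1 - α) * φ z ^ α ≤ α * φ z + (1 - α) * φ y := by
      intro z
      have := Real.geom_mean_le_arith_mean2_weighted hα0.le (sub_nonneg.2 hα1) (hφ z) (hφ y)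
        (by ring)
      linarith
    have hpy : 0 < φ y ^ (1 - α) := Real.rpow_pos_of_pos hpos _
    have hmul : φ y ^ (1 - α) * φ y ^ α = φ y := by
      rw [← Real.rpow_add hpos]; simp
    have h1 : φ y ^ (1 - α) * ∑ z, c y z * φ z ^ α
        ≤ α * ∑ z, c y z * φ z + (1 - α) * φ y * ∑ z, c y z := by
      rw [Finset.mul_sum, Finset.mul_sum, Finset.mul_sum, ← Finset.sum_add_distrib]
      refine Finset.sum_le_sum fun z _ => ?_
      have := mul_le_mul_of_nonneg_left (hyoung z) (hc y z)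
      linarith
    have h5 : φ y ^ (1 - α) * ∑ z, c y z * φ z ^ α
        ≤ φ y ^ (1 - α) * ((∑ z, c y z + α * k) * φ y ^ α) := by
      have e1 : φ y ^ (1 - α) * ((∑ z, c y z + α * k) * φ y ^ α)
          = (∑ z, c y z + α * k) * φ y := by
        rw [mul_left_comm, hmul]
      rw [e1]
      have := mul_le_mul_of_nonneg_left h hα0.le
      linarith
    exact le_of_mul_le_mul_left h5 hpy

/-- distance at killing is dominated by the diameter -/
lemma kill_dist (hc : ∀ x y, 0 ≤ c x y) {κ : S → ℝ} (hκ : ∀ x, 0 < κ x) (f : S → X) (y : S) :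
    G c κ (fun z => κ z * dist (f z) (f y)) y ≤ V c κ (L f) {y} y := by
  have := mpV hc hκ (fun A z => y ∈ A ∧ z ∈ A)
    (fun A z h w => ⟨Finset.mem_insert_of_mem h.1, Finset.mem_insert_self _ _⟩)
    (fun A z => G c κ (fun z => κ z * dist (f z) (f y)) z - V c κ (L f) A z) (fun A z h => by
      have h1 := V_spec hc hκ (L f) A z
      have h2 := G_spec hc hκ (fun z => κ z * dist (f z) (f y)) z
      have h3 : κ z * dist (f z) (f y) ≤ κ z * L f A :=
        mul_le_mul_of_nonneg_left (dist_le_L f h.2 h.1) (hκ z).le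
      simp only [mul_sub, Finset.sum_sub_distrib]
      linarith) {y} y ⟨Finset.mem_singleton_self y, Finset.mem_singleton_self y⟩
  linarith

/-- lower bound for the expected squared distance at killing -/
lemma kill_sq_lower (hc : ∀ x y, 0 ≤ c x y) {κ : S → ℝ} (hκ : ∀ x, 0 < κ x) (f : S → X)
    (x y : S) {a : ℝ} (ha : 0 ≤ a) (h : a + V c κ (L f) {y} y ≤ dist (f x) (f y)) :
    a ^ 2 ≤ G c κ (fun z => κ z * dist (f z) (f x) ^ 2) y := by
  have h0 := kill_dist hc hκ f y
  have := mpS hc hκ (fun z => 2 * a * (dist (f x) (f y)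
      - G c κ (fun z => κ z * dist (f z) (f y)) z) - a ^ 2
      - G c κ (fun z => κ z * dist (f z) (f x) ^ 2) z) (fun z => by
    have h1 := G_spec hc hκ (fun z => κ z * dist (f z) (f y)) z
    have h2 := G_spec hc hκ (fun z => κ z * dist (f z) (f x) ^ 2) z
    have h3 : dist (f x) (f y) - dist (f z) (f y) ≤ dist (f z) (f x) := by
      have := dist_triangle (f x) (f z) (f y)
      rw [dist_comm (f x) (f z)] at this
      linarith
    have h4 : 2 * a * (dist (f x) (f y) - dist (f z) (f y)) - a ^ 2 ≤ dist (f z) (f x) ^ 2 := by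
      have := mul_le_mul_of_nonneg_left h3 ha
      nlinarith [sq_nonneg (dist (f z) (f x) - a)]
    have h5 := mul_le_mul_of_nonneg_left h4 (hκ z).le
    have h6 : ∑ w, c z w * (2 * a * (dist (f x) (f y)
        - G c κ (fun z => κ z * dist (f z) (f y)) w) - a ^ 2
        - G c κ (fun z => κ z * dist (f z) (f x) ^ 2) w)
        = (2 * a * dist (f x) (f y) - a ^ 2) * ∑ w, c z w
          - 2 * a * ∑ w, c z w * G c κ (fun z => κ z * dist (f z) (f y)) w
          - ∑ w, c z w * G c κ (fun z => κ z * dist (f z) (f x) ^ 2) w := by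
      rw [Finset.mul_sum, Finset.mul_sum, ← Finset.sum_sub_distrib, ← Finset.sum_sub_distrib]
      exact Finset.sum_congr rfl fun w _ => by ring
    rw [h6]
    nlinarith) y
  nlinarith

/-- first moment against the cube root -/
lemma R1_le (hc : ∀ x y, 0 ≤ c x y) {κ : S → ℝ} (hκ : ∀ x, 0 < κ x) (f : S → X)
    {x : S} {r : ℝ} (hr : 0 ≤ r) (hr3 : r ^ 3 = V c κ (g3 f) {x} x) :
    V c κ (L f) {x} x ≤ r ^ 2 := by
  have key : ∀ τ : ℝ, 0 < τ → V c κ (L f) {x} x ≤ 2 / (3 * τ) * r ^ 3 + 1 / 3 * τ ^ 2 := by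
    intro τ hτ
    have := mpV hc hκ (fun _ _ => True) (fun _ _ _ _ => trivial)
      (fun A x => V c κ (L f) A x - 2 / (3 * τ) * V c κ (g3 f) A x - 1 / 3 * τ ^ 2)
      (fun A x _ => by
        have h1 := V_spec hc hκ (L f) A x
        have h2 := V_spec hc hκ (g3 f) A x
        have h3 : L f A ≤ 2 / (3 * τ) * g3 f A + 1 / 3 * τ ^ 2 := by
          have hs := Real.sqrt_nonneg (L f A)
          have hss : Real.sqrt (L f A) ^ 2 = L f A := Real.sq_sqrt (L_nonneg f A)
          have hy := young32 hs hτ.le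
          have e : g3 f A = Real.sqrt (L f A) ^ 3 := by
            rw [g3, pow_succ, hss]
          rw [e]
          rw [hss] at hy
          have h5 : 3 * τ * L f A ≤ 3 * τ * (2 / (3 * τ) * Real.sqrt (L f A) ^ 3 + 1 / 3 * τ ^ 2) := by
            have : 3 * τ * (2 / (3 * τ) * Real.sqrt (L f A) ^ 3 + 1 / 3 * τ ^ 2)
                = 2 * Real.sqrt (L f A) ^ 3 + τ ^ 3 := by
              field_simp
            rw [this]
            linarith
          exact le_of_mul_le_mul_left h5 (by positivity)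
        have h4 := mul_le_mul_of_nonneg_left h3 (hκ x).le
        have h6 : ∑ w, c x w * (V c κ (L f) (insert w A) w - 2 / (3 * τ) * V c κ (g3 f) (insert w A) w
            - 1 / 3 * τ ^ 2) = ∑ w, c x w * V c κ (L f) (insert w A) w
              - 2 / (3 * τ) * ∑ w, c x w * V c κ (g3 f) (insert w A) w
              - 1 / 3 * τ ^ 2 * ∑ w, c x w := by
          rw [Finset.mul_sum, Finset.mul_sum, ← Finset.sum_sub_distrib, ← Finset.sum_sub_distrib]
          exact Finset.sum_congr rfl fun w _ => by ring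
        rw [h6]
        have h7 : (∑ y, c x y + κ x) * (V c κ (L f) A x - 2 / (3 * τ) * V c κ (g3 f) A x
            - 1 / 3 * τ ^ 2) = (∑ y, c x y + κ x) * V c κ (L f) A x
            - 2 / (3 * τ) * ((∑ y, c x y + κ x) * V c κ (g3 f) A x)
            - (∑ y, c x y + κ x) * (1 / 3 * τ ^ 2) := by ring
        rw [h7, h1, h2]
        linarith) {x} x trivial
    rw [hr3]
    linarith
  rcases hr.eq_or_lt with h0 | hpos
  · rw [← h0]
    have h1 : ∀ τ : ℝ, 0 < τ → V c κ (L f) {x} x ≤ 1 / 3 * τ ^ 2 := by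
      intro τ hτ
      have := key τ hτ
      rw [← h0] at this
      simpa using this
    by_contra hcon
    push Not at hcon
    norm_num at hcon
    have h2 := h1 (Real.sqrt (V c κ (L f) {x} x)) (Real.sqrt_pos.2 hcon)
    rw [Real.sq_sqrt hcon.le] at h2
    linarith
  · have := key r hpos
    have e : 2 / (3 * r) * r ^ 3 + 1 / 3 * r ^ 2 = r ^ 2 := by
      field_simp
      ring
    linarith

end

end Pool.Agent.Helper983.MT
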