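import Pool.Agent.Helper983.MT.Step

set_option autoImplicit false

namespace Pool.Agent.Helper983.MT
open Finset

section
variable {S : Type} [Fintype S] [DecidableEq S] {X : Type} [MetricSpace X]
variable {c : S → S → ℝ}

/-- extra killing compensating the big jumps -/
noncomputable def kJ (c : S → S → ℝ) (f : S → X) (r : S → ℝ) (y : S) : ℝ :=
  open Classical in
  (∑ z, if r y ≤ dist (f y) (f z) then c y z * dist (f y) (f z) else 0) / r y

lemma kJ_nonneg (hc : ∀ x y, 0 ≤ c x y) (f : S → X) {r : S → ℝ} (hr : ∀ x, 0 ≤ r x) (y : S) :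
    0 ≤ kJ c f r y := by
  classical
  unfold kJ
  apply div_nonneg _ (hr y)
  apply Finset.sum_nonneg
  intro z _
  split_ifs
  · exact mul_nonneg (hc _ _) dist_nonneg
  · exact le_rfl

lemma kJ_mul_sq (hc : ∀ x y, 0 ≤ c x y) (f : S → X) {r : S → ℝ} (hr : ∀ x, 0 ≤ r x) (y : S) :
    kJ c f r y * r y ^ 2 ≤ ∑ z, c y z * dist (f y) (f z) ^ 2 := by
  classical
  have e : kJ c f r y * r y ^ 2
      = (∑ z, if r y ≤ dist (f y) (f z) then c y z * dist (f y) (f z) else 0) * r y := by
    unfold kJ
    rcases (hr y).eq_or_lt with h | h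
    · rw [← h]; simp
    · field_simp
  rw [e, Finset.sum_mul]
  refine Finset.sum_le_sum fun z _ => ?_
  have h0 : 0 ≤ dist (f y) (f z) := dist_nonneg
  split_ifs with h
  · have := mul_le_mul_of_nonneg_left h (mul_nonneg (hc y z) h0)
    nlinarith
  · rw [zero_mul]
    exact mul_nonneg (hc _ _) (sq_nonneg _)

/-- One step of the multiscale recursion: feasibility. -/
theorem stepB_feas (hc : ∀ x y, 0 ≤ c x y) {κ₀ κ' : S → ℝ} (hκ₀ : ∀ x, 0 < κ₀ x)
    (hκ' : ∀ x, 0 ≤ κ' x) (f : S → X) (ρ : S → ℝ) (hρ : ∀ x, 0 ≤ ρ x)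
    (hρ3 : ∀ x, ρ x ^ 3 = V c κ₀ (g3 f) {x} x) {ε : ℝ} (hε : 0 < ε)
    (hfeas : ∀ x, V c (fun x => κ₀ x + κ' x) (L f) {x} x ≤ ε * ρ x ^ 2)
    {α θ : ℝ} (hα0 : 0 < α) (hα1 : α ≤ 1) (hθ0 : 0 < θ) (hθα : θ ^ α ≤ 1 / 512)
    (Bad : S → Prop)
    (hBad : ∀ x, ¬ Bad x → G c (fun x => κ₀ x + κ' x)
      (fun z => (κ₀ z + κ' z) * dist (f z) (f x) ^ 2) x < θ * (64 * (ε * ρ x ^ 2)) ^ 2)
    (κ2 : S → ℝ)
    (hκ2 : ∀ x, kJ c f (fun x => ε * ρ x ^ 2) x + α * κ' x ≤ κ2 x)
    (hκ2B : ∀ x, Bad x → κ' x ≤ κ2 x) :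
    ∀ x, V c (fun x => κ₀ x + κ2 x) (L f) {x} x ≤ 512 * ε * ρ x ^ 2 := by
  classical
  set r : S → ℝ := fun x => ε * ρ x ^ 2 with hr
  have hr0 : ∀ x, 0 ≤ r x := fun x => mul_nonneg hε.le (sq_nonneg _)
  have hkJ0 : ∀ x, 0 ≤ kJ c f r x := kJ_nonneg hc f hr0
  have hκ20 : ∀ x, 0 ≤ κ2 x := fun x =>
    (add_nonneg (hkJ0 x) (mul_nonneg hα0.le (hκ' x))).trans (hκ2 x)
  have hκ : ∀ x, 0 < κ₀ x + κ' x := fun x => add_pos_of_pos_of_nonneg (hκ₀ x) (hκ' x)
  have hκκ : ∀ x, 0 < κ₀ x + κ2 x := fun x => add_pos_of_pos_of_nonneg (hκ₀ x) (hκ20 x)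
  set R2 := V c (fun x => κ₀ x + κ2 x) (L f) with hR2
  set Rk := V c (fun x => κ₀ x + κ' x) (L f) with hRk
  have hR2spec := V_spec hc hκκ (L f)
  have hRkspec := V_spec hc hκ (L f)
  simp only [← hR2, ← hRk] at hR2spec hRkspec
  have hR20 : ∀ A x, L f A ≤ R2 A x := le_V hc hκκ (L_mono' f)
  have hRk0 : ∀ A x, L f A ≤ Rk A x := le_V hc hκ (L_mono' f)
  have hR1 : ∀ x, V c κ₀ (L f) {x} x ≤ ρ x ^ 2 := fun x => R1_le hc hκ₀ f (hρ x) (hρ3 x)
  have hsuper3 : ∀ y, ∑ z, c y z * ρ z ^ 3 ≤ (∑ z, c y z + κ₀ y) * ρ y ^ 3 := by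
    intro y
    have := V_super hc hκ₀ (g := g3 f) (g3_mono f)
      (fun A => mul_nonneg (L_nonneg f A) (Real.sqrt_nonneg _)) y
    simp only [← hρ3] at this
    exact this
  have hsuper2 := super_sq hc hκ₀ hρ hsuper3
  -- zero case
  have hzero : ∀ x, r x = 0 → R2 {x} x ≤ 0 := by
    intro x hx
    have h1 : ρ x ^ 2 = 0 := by
      rcases mul_eq_zero.1 hx with h | h
      · exact absurd h hε.ne'
      · exact h
    have h2 := V_anti hc hκ₀ (κ₂ := fun x => κ₀ x + κ2 x)
      (fun x => le_add_of_nonneg_right (hκ20 x)) (L_mono' f) {x} x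
    have h3 := hR1 x
    rw [h1] at h3
    exact h2.trans h3
  have hzeroJ : ∀ y, r y = 0 → ∀ z, c y z * dist (f y) (f z) = 0 := by
    intro y hy z
    have h0 := hzero y hy
    have h0' : R2 {y} y = 0 := le_antisymm h0 ((L_nonneg f _).trans (hR20 _ _))
    have h1 := hR2spec {y} y
    rw [h0', L_singleton, mul_zero, mul_zero, zero_add] at h1
    have hnn : ∀ z ∈ Finset.univ, 0 ≤ c y z * R2 (insert z {y}) z := fun z _ =>
      mul_nonneg (hc _ _) ((L_nonneg f _).trans (hR20 _ _))
    have h2 := (Finset.sum_eq_zero_iff_of_nonneg hnn).1 h1.symm z (Finset.mem_univ z)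
    have h3 : c y z * dist (f y) (f z) ≤ c y z * R2 (insert z {y}) z :=
      mul_le_mul_of_nonneg_left ((dist_le_L f (Finset.mem_insert_of_mem
        (Finset.mem_singleton_self y)) (Finset.mem_insert_self z _)).trans (hR20 _ _)) (hc _ _)
    exact le_antisymm (h3.trans h2.le) (mul_nonneg (hc _ _) dist_nonneg)
  have hkJr : ∀ y, kJ c f r y * r y
      = ∑ z, if r y ≤ dist (f y) (f z) then c y z * dist (f y) (f z) else 0 := by
    intro y
    rcases (hr0 y).eq_or_lt with h | h
    · rw [← h, mul_zero]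
      symm
      apply Finset.sum_eq_zero
      intro z _
      rw [hzeroJ y h.symm z]
      simp
    · unfold kJ
      rw [div_mul_cancel₀ _ h.ne']
  -- the ratio
  obtain ⟨Θ, hΘ0, hΘ, hΘatt⟩ : ∃ Θ : ℝ, 0 ≤ Θ ∧ (∀ x, R2 {x} x ≤ Θ * r x) ∧
      (Θ = 0 ∨ ∃ x, 0 < r x ∧ R2 {x} x = Θ * r x) := by
    by_cases hex : ∃ x, 0 < r x
    · obtain ⟨x₀, hx₀⟩ := hex
      obtain ⟨x₁, hx₁, hmax⟩ := Finset.exists_max_image (Finset.univ.filter fun x => 0 < r x)
        (fun x => R2 {x} x / r x) ⟨x₀, by simp [hx₀]⟩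
      rw [Finset.mem_filter] at hx₁
      refine ⟨R2 {x₁} x₁ / r x₁, div_nonneg ((L_nonneg f _).trans (hR20 _ _)) (hr0 _), ?_,
        Or.inr ⟨x₁, hx₁.2, by rw [div_mul_cancel₀ _ hx₁.2.ne']⟩⟩
      intro x
      rcases (hr0 x).eq_or_lt with h | h
      · rw [← h, mul_zero]
        exact hzero x h.symm
      · have := hmax x (by simp [h])
        rwa [div_le_iff₀ h] at this
    · push Not at hex
      refine ⟨0, le_rfl, fun x => ?_, Or.inl rfl⟩
      rw [zero_mul]
      exact hzero x (le_antisymm (hex x) (hr0 x))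
  -- nonbad starting points
  have hnonbad : ∀ x, ¬ Bad x → R2 {x} x ≤ (321 + Θ / 4) * r x := by
    intro x hx
    set hh := G c (fun x => κ₀ x + κ' x)
      (fun z => (κ₀ z + κ' z) * dist (f z) (f x) ^ 2) with hhdef
    have hhspec := G_spec hc hκ (fun z => (κ₀ z + κ' z) * dist (f z) (f x) ^ 2)
    simp only [← hhdef] at hhspec
    have hhnn : ∀ y, 0 ≤ hh y := G_nonneg hc hκ (fun z => mul_nonneg (hκ z).le (sq_nonneg _))
    have hlt : hh x < θ * (64 * r x) ^ 2 := hBad x hx
    have hrx : 0 < r x := by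
      rcases (hr0 x).eq_or_lt with h | h
      · rw [← h] at hlt
        have := hhnn x
        norm_num at hlt
        linarith
      · exact h
    have hρx : 0 < ρ x := by
      rcases (hρ x).eq_or_lt with h | h
      · have h1 : r x = ε * ρ x ^ 2 := rfl
        rw [← h] at h1
        norm_num at h1
        linarith
      · exact h
    have h64 : 0 < (64 * r x) ^ 2 := by positivity
    set φ : S → ℝ := fun y => hh y / (64 * r x) ^ 2 with hφ
    have hφ0 : ∀ y, 0 ≤ φ y := fun y => div_nonneg (hhnn y) h64.le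
    have hφsup : ∀ y, ∑ z, c y z * φ z ≤ (∑ z, c y z + (κ₀ y + κ' y)) * φ y := by
      intro y
      have h1 := hhspec y
      have h2 : 0 ≤ (κ₀ y + κ' y) * dist (f y) (f x) ^ 2 := mul_nonneg (hκ y).le (sq_nonneg _)
      have h3 : ∑ z, c y z * φ z = (∑ z, c y z * hh z) / (64 * r x) ^ 2 := by
        rw [Finset.sum_div]
        exact Finset.sum_congr rfl fun z _ => by rw [hφ]; ring
      have h4 : (∑ z, c y z + (κ₀ y + κ' y)) * φ y
          = ((∑ z, c y z + (κ₀ y + κ' y)) * hh y) / (64 * r x) ^ 2 := by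
        rw [hφ]; ring
      rw [h3, h4]
      apply div_le_div_of_nonneg_right _ h64.le
      linarith
    set w : S → ℝ := fun y => φ y ^ α with hw
    have hw0 : ∀ y, 0 ≤ w y := fun y => Real.rpow_nonneg (hφ0 y) α
    have hwsup : ∀ y, ∑ z, c y z * w z ≤ (∑ z, c y z + α * (κ₀ y + κ' y)) * w y := fun y =>
      super_rpow hc hφ0 hα0 hα1 (hκ y) (hφsup y)
    have hwx : w x ≤ 1 / 512 := by
      refine le_trans ?_ hθα
      apply Real.rpow_le_rpow (hφ0 x) _ hα0.le
      rw [hφ]
      simp only
      rw [div_le_iff₀ h64]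
      exact hlt.le
    set e : S → ℝ := fun y => ε * ρ y ^ 3 / (8 * ρ x) with he
    have he0 : ∀ y, 0 ≤ e y := fun y =>
      div_nonneg (mul_nonneg hε.le (pow_nonneg (hρ y) 3)) (by positivity)
    have hesup : ∀ y, ∑ z, c y z * e z ≤ (∑ z, c y z + κ₀ y) * e y := by
      intro y
      have h1 := hsuper3 y
      have h3 : ∑ z, c y z * e z = ε / (8 * ρ x) * (∑ z, c y z * ρ z ^ 3) := by
        rw [Finset.mul_sum]
        exact Finset.sum_congr rfl fun z _ => by rw [he]; ring
      have h4 : (∑ z, c y z + κ₀ y) * e y = ε / (8 * ρ x) * ((∑ z, c y z + κ₀ y) * ρ y ^ 3) := by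
        rw [he]; ring
      rw [h3, h4]
      exact mul_le_mul_of_nonneg_left h1 (by positivity)
    have hex : e x = r x / 8 := by
      rw [he, hr]
      field_simp
    -- points outside Ω
    have hout : ∀ z, ¬ (dist (f x) (f z) < 128 * r x ∧ ρ z < 8 * ρ x) →
        r z ≤ e z + 64 * r x * w z := by
      intro z hz
      by_cases h8 : ρ z < 8 * ρ x
      · have hd : 128 * r x ≤ dist (f x) (f z) := by
          by_contra hcon
          push Not at hcon
          exact hz ⟨hcon, h8⟩
        have hrz : r z ≤ 64 * r x := by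
          simp only [hr]
          have : ρ z ^ 2 ≤ (8 * ρ x) ^ 2 := pow_le_pow_left₀ (hρ z) h8.le 2
          nlinarith
        have h1 : (64 * r x) ^ 2 ≤ hh z := by
          apply kill_sq_lower hc hκ f x z (by positivity)
          have h2 : Rk {z} z ≤ r z := hfeas z
          linarith
        have h2 : 1 ≤ φ z := by
          rw [hφ]
          simp only
          rw [le_div_iff₀ h64, one_mul]
          exact h1
        have h3 : 1 ≤ w z := Real.one_le_rpow h2 hα0.le
        have h4 := he0 z
        have h5 : 64 * r x * 1 ≤ 64 * r x * w z :=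
          mul_le_mul_of_nonneg_left h3 (by positivity)
        linarith
      · push Not at h8
        have h1 : r z ≤ e z := by
          simp only [hr, he]
          rw [le_div_iff₀ (by positivity)]
          have : ρ z ^ 2 * (8 * ρ x) ≤ ρ z ^ 2 * ρ z := mul_le_mul_of_nonneg_left h8 (sq_nonneg _)
          nlinarith
        have h2 : 0 ≤ 64 * r x * w z := mul_nonneg (by positivity) (hw0 z)
        linarith
    have hmain := mp {t : Finset S × S | (∀ a ∈ t.1, dist (f x) (f a) < 128 * r x ∧ ρ a < 8 * ρ x)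
        ∧ t.2 ∈ t.1}
      (fun t => R2 t.1 t.2 - (320 * r x + r t.2 + Θ * (e t.2 + 64 * r x * w t.2))) ?_
      ({x}, x) ⟨by
        intro a ha
        rw [Finset.mem_singleton] at ha
        rw [ha, dist_self]
        constructor
        · positivity
        · linarith, Finset.mem_singleton_self x⟩
    · simp only [hex] at hmain
      have h1 : 64 * r x * w x ≤ 64 * r x * (1 / 512) :=
        mul_le_mul_of_nonneg_left hwx (by positivity)
      have h2 : Θ * (r x / 8 + 64 * r x * w x) ≤ Θ * (r x / 8 + 64 * r x * (1 / 512)) :=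
        mul_le_mul_of_nonneg_left (by linarith) hΘ0
      nlinarith
    · rintro ⟨A, y⟩ ⟨hA, hyA⟩ Bd hBd hle
      simp only at hA hyA
      refine ⟨∑ z, c y z, κ₀ y + κ2 y, Finset.sum_nonneg fun z _ => hc _ _, hκκ y, ?_⟩
      have hLA : L f A ≤ 256 * r x := by
        apply L_le f (by positivity)
        intro a ha b hb
        have h1 := (hA a ha).1
        have h2 := (hA b hb).1
        have h3 := dist_triangle (f a) (f x) (f b)
        rw [dist_comm (f a) (f x)] at h3
        linarith
      have hry : r y < 64 * r x := by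
        have h1 := (hA y hyA).2
        simp only [hr]
        have : ρ y ^ 2 < (8 * ρ x) ^ 2 := pow_lt_pow_left₀ h1 (hρ y) (by norm_num)
        nlinarith
      have hper : ∀ z, c y z * R2 (insert z A) z
          ≤ c y z * (320 * r x + r z + Θ * (e z + 64 * r x * w z) + Bd)
            + (if r y ≤ dist (f y) (f z) then c y z * dist (f y) (f z) else 0) := by
        intro z
        have hd0 : 0 ≤ dist (f y) (f z) := dist_nonneg
        by_cases hz : dist (f x) (f z) < 128 * r x ∧ ρ z < 8 * ρ x
        · have h1 := hle (insert z A, z) ⟨by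
            intro a ha
            rcases Finset.mem_insert.1 ha with h | h
            · rw [h]; exact hz
            · exact hA a h, Finset.mem_insert_self _ _⟩
          simp only at h1
          have h2 : c y z * R2 (insert z A) z
              ≤ c y z * (320 * r x + r z + Θ * (e z + 64 * r x * w z) + Bd) :=
            mul_le_mul_of_nonneg_left (by linarith) (hc _ _)
          have h3 : 0 ≤ (if r y ≤ dist (f y) (f z) then c y z * dist (f y) (f z) else 0) := by
            split_ifs
            · exact mul_nonneg (hc _ _) hd0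
            · exact le_rfl
          linarith
        · have h1 : R2 (insert z A) z ≤ L f (insert z A) + R2 {z} z :=
            V_L_le_add hc hκκ f (Finset.mem_insert_self z A)
          have h2 := L_insert_le f z hyA
          have h3 := hΘ z
          have h4 : Θ * r z ≤ Θ * (e z + 64 * r x * w z) :=
            mul_le_mul_of_nonneg_left (hout z hz) hΘ0
          have h5 : R2 (insert z A) z ≤ 256 * r x + dist (f y) (f z)
              + Θ * (e z + 64 * r x * w z) := by linarith
          have hrz := hr0 z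
          split_ifs with hbig
          · have h6 : c y z * R2 (insert z A) z ≤ c y z * (256 * r x + dist (f y) (f z)
              + Θ * (e z + 64 * r x * w z)) := mul_le_mul_of_nonneg_left h5 (hc _ _)
            have h7 : c y z * (256 * r x + Θ * (e z + 64 * r x * w z))
                ≤ c y z * (320 * r x + r z + Θ * (e z + 64 * r x * w z) + Bd) :=
              mul_le_mul_of_nonneg_left (by linarith) (hc _ _)
            linarith
          · push Not at hbig
            rw [add_zero]
            exact mul_le_mul_of_nonneg_left (by linarith) (hc _ _)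
      have hsum := Finset.sum_le_sum fun z (_ : z ∈ Finset.univ) => hper z
      rw [Finset.sum_add_distrib, ← hkJr y] at hsum
      have hexp : ∑ z, c y z * (320 * r x + r z + Θ * (e z + 64 * r x * w z) + Bd)
          = (320 * r x + Bd) * ∑ z, c y z + ∑ z, c y z * r z + Θ * ∑ z, c y z * e z
            + Θ * (64 * r x) * ∑ z, c y z * w z := by
        rw [Finset.mul_sum, Finset.mul_sum, Finset.mul_sum, ← Finset.sum_add_distrib,
          ← Finset.sum_add_distrib, ← Finset.sum_add_distrib]
        exact Finset.sum_congr rfl fun z _ => by ring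
      rw [hexp] at hsum
      have hspec := hR2spec A y
      have hs2 : ∑ z, c y z * r z ≤ (∑ z, c y z + κ₀ y) * r y := by
        have h1 := hsuper2 y
        have h3 : ∑ z, c y z * r z = ε * (∑ z, c y z * ρ z ^ 2) := by
          rw [Finset.mul_sum]
          exact Finset.sum_congr rfl fun z _ => by rw [hr]; ring
        rw [h3, hr]
        simp only
        have := mul_le_mul_of_nonneg_left h1 hε.le
        linarith
      have hs3 : Θ * ∑ z, c y z * e z ≤ Θ * ((∑ z, c y z + (κ₀ y + κ2 y)) * e y) := by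
        apply mul_le_mul_of_nonneg_left _ hΘ0
        have h1 := hesup y
        have h2 : 0 ≤ κ2 y * e y := mul_nonneg (hκ20 y) (he0 y)
        linarith
      have hs4 : Θ * (64 * r x) * ∑ z, c y z * w z
          ≤ Θ * (64 * r x) * ((∑ z, c y z + (κ₀ y + κ2 y)) * w y) := by
        apply mul_le_mul_of_nonneg_left _ (by positivity)
        have h1 := hwsup y
        have h2 : α * κ₀ y ≤ κ₀ y := by
          have := hκ₀ y
          nlinarith
        have h3 : α * (κ₀ y + κ' y) ≤ κ₀ y + κ2 y := by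
          have := hκ2 y
          have := hkJ0 y
          linarith
        have h4 := mul_le_mul_of_nonneg_right h3 (hw0 y)
        linarith
      have hk2 : kJ c f r y * r y ≤ κ2 y * r y := by
        apply mul_le_mul_of_nonneg_right _ (hr0 y)
        have := hκ2 y
        have := mul_nonneg hα0.le (hκ' y)
        linarith
      have hkL : (κ₀ y + κ2 y) * L f A ≤ (κ₀ y + κ2 y) * (320 * r x) :=
        mul_le_mul_of_nonneg_left (by linarith) (hκκ y).le
      set Sg := ∑ z, c y z
      show (Sg + (κ₀ y + κ2 y)) * (R2 A y - (320 * r x + r y + Θ * (e y + 64 * r x * w y)))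
        ≤ Sg * Bd
      linarith
  -- bad starting points
  have hbad : ∀ x, Bad x → R2 {x} x ≤ (322 + Θ / 4) * r x := by
    intro x hx
    have hC0 : 0 ≤ 321 + Θ / 4 := by positivity
    have hmain := mp {t : Finset S × S | t.2 ∈ t.1 ∧ Bad t.2}
      (fun t => R2 t.1 t.2 - Rk t.1 t.2 - (321 + Θ / 4) * r t.2) ?_
      ({x}, x) ⟨Finset.mem_singleton_self x, hx⟩
    · have h1 : Rk {x} x ≤ r x := hfeas x
      simp only at hmain
      linarith
    · rintro ⟨A, y⟩ ⟨hyA, hyB⟩ Bd hBd hle
      simp only at hyA hyB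
      refine ⟨∑ z, c y z, κ₀ y + κ2 y, Finset.sum_nonneg fun z _ => hc _ _, hκκ y, ?_⟩
      have hper : ∀ z, c y z * (R2 (insert z A) z - Rk (insert z A) z - (321 + Θ / 4) * r z)
          ≤ c y z * Bd := by
        intro z
        apply mul_le_mul_of_nonneg_left _ (hc _ _)
        by_cases hz : Bad z
        · exact hle (insert z A, z) ⟨Finset.mem_insert_self _ _, hz⟩
        · have h1 : R2 (insert z A) z ≤ L f (insert z A) + R2 {z} z :=
            V_L_le_add hc hκκ f (Finset.mem_insert_self z A)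
          have h2 := hnonbad z hz
          have h3 := hRk0 (insert z A) z
          linarith
      have hsum := Finset.sum_le_sum fun z (_ : z ∈ Finset.univ) => hper z
      rw [← Finset.sum_mul] at hsum
      simp only [mul_sub, Finset.sum_sub_distrib] at hsum
      have h1 := hR2spec A y
      have h2 := hRkspec A y
      have h3 : (κ2 y - κ' y) * L f A ≤ (κ2 y - κ' y) * Rk A y :=
        mul_le_mul_of_nonneg_left (hRk0 A y) (sub_nonneg.2 (hκ2B y hyB))
      have hs2 : ∑ z, c y z * ((321 + Θ / 4) * r z)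
          ≤ (321 + Θ / 4) * ((∑ z, c y z + κ₀ y) * r y) := by
        have h1 := hsuper2 y
        have h3 : ∑ z, c y z * ((321 + Θ / 4) * r z)
            = (321 + Θ / 4) * (ε * (∑ z, c y z * ρ z ^ 2)) := by
          rw [Finset.mul_sum, Finset.mul_sum]
          exact Finset.sum_congr rfl fun z _ => by rw [hr]; ring
        rw [h3, hr]
        apply mul_le_mul_of_nonneg_left _ hC0
        have := mul_le_mul_of_nonneg_left h1 hε.le
        simp only
        linarith
      have h5 : 0 ≤ (321 + Θ / 4) * (κ2 y * r y) :=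
        mul_nonneg hC0 (mul_nonneg (hκ20 y) (hr0 y))
      set Sg := ∑ z, c y z
      show (Sg + (κ₀ y + κ2 y)) * (R2 A y - Rk A y - (321 + Θ / 4) * r y) ≤ Sg * Bd
      linarith
  -- conclusion
  have hall : ∀ x, R2 {x} x ≤ (322 + Θ / 4) * r x := by
    intro x
    by_cases hx : Bad x
    · exact hbad x hx
    · have := hnonbad x hx
      have := hr0 x
      linarith
  have hΘ512 : Θ ≤ 512 := by
    rcases hΘatt with h | ⟨x, hx, hx2⟩
    · rw [h]; norm_num
    · have h1 := hall x
      rw [hx2] at h1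
      have h2 := le_of_mul_le_mul_right h1 hx
      linarith
  intro x
  have h1 := hΘ x
  have h2 := mul_le_mul_of_nonneg_right hΘ512 (hr0 x)
  have h3 : 512 * r x = 512 * ε * ρ x ^ 2 := by rw [hr]; ring
  linarith

end

end Pool.Agent.Helper983.MT
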