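import Pool.Agent.Helper983.MT.Basic

set_option autoImplicit false

namespace Pool.Agent.Helper983.MT
open Finset

section diam
variable {S : Type} {X : Type} [MetricSpace X]

/-- diameter of the image of a finite set -/
noncomputable def L (f : S → X) (A : Finset S) : ℝ :=
  (((A ×ˢ A).sup fun p => nndist (f p.1) (f p.2) : NNReal) : ℝ)

lemma L_nonneg (f : S → X) (A : Finset S) : 0 ≤ L f A := NNReal.coe_nonneg _

lemma dist_le_L (f : S → X) {A : Finset S} {x y : S} (hx : x ∈ A) (hy : y ∈ A) :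
    dist (f x) (f y) ≤ L f A := by
  have h := Finset.le_sup (f := fun p : S × S => nndist (f p.1) (f p.2))
    (Finset.mk_mem_product hx hy)
  have h2 : (nndist (f x) (f y) : ℝ) ≤ L f A := NNReal.coe_le_coe.2 h
  simpa using h2

lemma L_le (f : S → X) {A : Finset S} {B : ℝ} (hB : 0 ≤ B)
    (h : ∀ x ∈ A, ∀ y ∈ A, dist (f x) (f y) ≤ B) : L f A ≤ B := by
  lift B to NNReal using hB
  unfold L
  rw [NNReal.coe_le_coe]
  apply Finset.sup_le
  rintro ⟨x, y⟩ hxy
  rw [Finset.mem_product] at hxy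
  have := h x hxy.1 y hxy.2
  rw [← NNReal.coe_le_coe]
  simpa using this

lemma L_mono (f : S → X) {A C : Finset S} (h : A ⊆ C) : L f A ≤ L f C :=
  L_le f (L_nonneg f C) fun _ hx _ hy => dist_le_L f (h hx) (h hy)

lemma L_singleton (f : S → X) (x : S) : L f {x} = 0 := by
  apply le_antisymm _ (L_nonneg f _)
  apply L_le f le_rfl
  intro y hy z hz
  rw [Finset.mem_singleton] at hy hz
  rw [hy, hz, dist_self]

variable [DecidableEq S]

lemma L_union_le (f : S → X) {A C : Finset S} {o : S} (hA : o ∈ A) (hC : o ∈ C) :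
    L f (A ∪ C) ≤ L f A + L f C := by
  have h1 := L_nonneg f A
  have h2 := L_nonneg f C
  apply L_le f (add_nonneg h1 h2)
  intro x hx y hy
  rw [Finset.mem_union] at hx hy
  rcases hx with hx | hx <;> rcases hy with hy | hy
  · linarith [dist_le_L f hx hy]
  · linarith [dist_le_L f hx hA, dist_le_L f hC hy, dist_triangle (f x) (f o) (f y)]
  · linarith [dist_le_L f hx hC, dist_le_L f hA hy, dist_triangle (f x) (f o) (f y)]
  · linarith [dist_le_L f hx hy]

lemma L_insert_le (f : S → X) {A : Finset S} {y : S} (z : S) (hy : y ∈ A) :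
    L f (insert z A) ≤ L f A + dist (f y) (f z) := by
  have h1 := L_nonneg f A
  have h0 : 0 ≤ dist (f y) (f z) := dist_nonneg
  apply L_le f (by linarith)
  intro a ha b hb
  rw [Finset.mem_insert] at ha hb
  rcases ha with rfl | ha <;> rcases hb with rfl | hb
  · rw [dist_self]; linarith
  · have h2 := dist_le_L f hy hb
    have h3 := dist_triangle (f a) (f y) (f b)
    rw [dist_comm (f a) (f y)] at h3
    linarith
  · have h2 := dist_le_L f ha hy
    have h3 := dist_triangle (f a) (f y) (f b)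
    linarith
  · linarith [dist_le_L f ha hb]

lemma L_le_insert (f : S → X) (A : Finset S) (z : S) : L f A ≤ L f (insert z A) :=
  L_mono f (Finset.subset_insert z A)

end diam

section value
variable {S : Type} [Fintype S] [DecidableEq S]

/-- value of a function of the visited set at the killing time -/
noncomputable def V (c : S → S → ℝ) (κ : S → ℝ) (g : Finset S → ℝ) (A : Finset S) (x : S) : ℝ :=
  open Classical in
  if h : ∃ u : Finset S × S → ℝ, ∀ t, (∑ y, c t.2 y + κ t.2) * u t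
      = κ t.2 * g t.1 + ∑ y, c t.2 y * u (insert y t.1, y) then h.choose (A, x) else 0

/-- value of a general reward on the base space -/
noncomputable def G (c : S → S → ℝ) (κ : S → ℝ) (b : S → ℝ) (x : S) : ℝ :=
  open Classical in
  if h : ∃ u : S → ℝ, ∀ x, (∑ y, c x y + κ x) * u x
      = b x + ∑ y, c x y * u y then h.choose x else 0

variable {c : S → S → ℝ} {κ : S → ℝ}

lemma V_spec (hc : ∀ x y, 0 ≤ c x y) (hκ : ∀ x, 0 < κ x) (g : Finset S → ℝ)
    (A : Finset S) (x : S) :
    (∑ y, c x y + κ x) * V c κ g A x = κ x * g A + ∑ y, c x y * V c κ g (insert y A) y := by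
  classical
  have h : ∃ u : Finset S × S → ℝ, ∀ t, (∑ y, c t.2 y + κ t.2) * u t
      = κ t.2 * g t.1 + ∑ y, c t.2 y * u (insert y t.1, y) :=
    exists_sol c κ (fun t : Finset S × S => t.2) (fun t y => (insert y t.1, y)) hc hκ
      (fun t => κ t.2 * g t.1)
  have h2 := h.choose_spec (A, x)
  simp only [V, dif_pos h]
  exact h2

lemma G_spec (hc : ∀ x y, 0 ≤ c x y) (hκ : ∀ x, 0 < κ x) (b : S → ℝ) (x : S) :
    (∑ y, c x y + κ x) * G c κ b x = b x + ∑ y, c x y * G c κ b y := by
  classical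
  have h : ∃ u : S → ℝ, ∀ x, (∑ y, c x y + κ x) * u x = b x + ∑ y, c x y * u y :=
    exists_sol c κ (fun t : S => t) (fun _ y => y) hc hκ b
  have h2 := h.choose_spec x
  simp only [G, dif_pos h]
  exact h2

/-- maximum principle on the space of (visited set, position), closed domain -/
theorem mpV (hc : ∀ x y, 0 ≤ c x y) (hκ : ∀ x, 0 < κ x) (D : Finset S → S → Prop)
    (hD : ∀ A x, D A x → ∀ y, D (insert y A) y) (u : Finset S → S → ℝ)
    (h : ∀ A x, D A x → (∑ y, c x y + κ x) * u A x ≤ ∑ y, c x y * u (insert y A) y) :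
    ∀ A x, D A x → u A x ≤ 0 := by
  intro A x hAx
  refine mp {t : Finset S × S | D t.1 t.2} (fun t => u t.1 t.2) ?_ (A, x) hAx
  rintro ⟨A, x⟩ hAx B hB hle
  refine ⟨∑ y, c x y, κ x, Finset.sum_nonneg fun y _ => hc _ _, hκ _, ?_⟩
  refine (h A x hAx).trans ?_
  rw [Finset.sum_mul]
  exact Finset.sum_le_sum fun y _ => mul_le_mul_of_nonneg_left (hle (insert y A, y) (hD A x hAx y))
    (hc _ _)

/-- maximum principle on the base space -/
theorem mpS (hc : ∀ x y, 0 ≤ c x y) (hκ : ∀ x, 0 < κ x) (u : S → ℝ)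
    (h : ∀ x, (∑ y, c x y + κ x) * u x ≤ ∑ y, c x y * u y) :
    ∀ x, u x ≤ 0 := by
  intro x
  refine mp Set.univ u ?_ x (Set.mem_univ x)
  intro x _ B hB hle
  refine ⟨∑ y, c x y, κ x, Finset.sum_nonneg fun y _ => hc _ _, hκ _, ?_⟩
  refine (h x).trans ?_
  rw [Finset.sum_mul]
  exact Finset.sum_le_sum fun y _ => mul_le_mul_of_nonneg_left (hle y (Set.mem_univ _))
    (hc _ _)

/-- maximum principle on the base space with absorbing complement -/
theorem mpS' (hc : ∀ x y, 0 ≤ c x y) (hκ : ∀ x, 0 < κ x) (D : S → Prop) (u : S → ℝ)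
    (hD : ∀ x, ¬ D x → u x ≤ 0)
    (h : ∀ x, D x → (∑ y, c x y + κ x) * u x ≤ ∑ y, c x y * u y) :
    ∀ x, u x ≤ 0 := by
  intro x
  by_cases hx : D x
  swap
  · exact hD x hx
  refine mp {x | D x} u ?_ x hx
  intro x hx B hB hle
  refine ⟨∑ y, c x y, κ x, Finset.sum_nonneg fun y _ => hc _ _, hκ _, ?_⟩
  refine (h x hx).trans ?_
  rw [Finset.sum_mul]
  refine Finset.sum_le_sum fun y _ => mul_le_mul_of_nonneg_left ?_ (hc _ _)
  by_cases hy : D y
  · exact hle y hy
  · exact (hD y hy).trans hB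

lemma G_nonneg (hc : ∀ x y, 0 ≤ c x y) (hκ : ∀ x, 0 < κ x) {b : S → ℝ} (hb : ∀ x, 0 ≤ b x)
    (x : S) : 0 ≤ G c κ b x := by
  have := mpS hc hκ (fun x => - G c κ b x) (fun x => by
    have h1 := G_spec hc hκ b x
    have h2 := hb x
    simp only [mul_neg, Finset.sum_neg_distrib]
    linarith) x
  linarith

/-- the value dominates the current reward -/
lemma le_V (hc : ∀ x y, 0 ≤ c x y) (hκ : ∀ x, 0 < κ x) {g : Finset S → ℝ}
    (hg : ∀ A C, A ⊆ C → g A ≤ g C) (A : Finset S) (x : S) : g A ≤ V c κ g A x := by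
  have := mpV hc hκ (fun _ _ => True) (fun _ _ _ _ => trivial)
    (fun A x => g A - V c κ g A x) (fun A x _ => by
      have h1 := V_spec hc hκ g A x
      have h2 : ∑ y, c x y * g A ≤ ∑ y, c x y * g (insert y A) :=
        Finset.sum_le_sum fun y _ => mul_le_mul_of_nonneg_left (hg _ _ (subset_insert y A)) (hc _ _)
      rw [← Finset.sum_mul] at h2
      simp only [mul_sub, Finset.sum_sub_distrib]
      linarith) A x trivial
  linarith

/-- the value is bounded by the reward of the full set -/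
lemma V_le_univ (hc : ∀ x y, 0 ≤ c x y) (hκ : ∀ x, 0 < κ x) {g : Finset S → ℝ}
    (hg : ∀ A C, A ⊆ C → g A ≤ g C) (A : Finset S) (x : S) :
    V c κ g A x ≤ g Finset.univ := by
  have := mpV hc hκ (fun _ _ => True) (fun _ _ _ _ => trivial)
    (fun A x => V c κ g A x - g Finset.univ) (fun A x _ => by
      have h1 := V_spec hc hκ g A x
      have h2 : κ x * g A ≤ κ x * g Finset.univ :=
        mul_le_mul_of_nonneg_left (hg _ _ (Finset.subset_univ A)) (hκ x).le
      simp only [mul_sub, Finset.sum_sub_distrib, ← Finset.sum_mul]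
      linarith) A x trivial
  linarith

/-- monotone in the visited set -/
lemma V_mono (hc : ∀ x y, 0 ≤ c x y) (hκ : ∀ x, 0 < κ x) {g : Finset S → ℝ}
    (hg : ∀ A C, A ⊆ C → g A ≤ g C) {A C : Finset S} (h : A ⊆ C) (x : S) :
    V c κ g A x ≤ V c κ g C x := by
  have := mpV hc hκ (fun _ _ => True) (fun _ _ _ _ => trivial)
    (fun A x => V c κ g A x - V c κ g (A ∪ C) x) (fun A x _ => by
      have h1 := V_spec hc hκ g A x
      have h2 := V_spec hc hκ g (A ∪ C) x
      have h3 : κ x * g A ≤ κ x * g (A ∪ C) :=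
        mul_le_mul_of_nonneg_left (hg _ _ (Finset.subset_union_left)) (hκ x).le
      simp only [mul_sub, Finset.sum_sub_distrib]
      have h4 : ∑ y, c x y * V c κ g (insert y A ∪ C) y
          = ∑ y, c x y * V c κ g (insert y (A ∪ C)) y := by
        refine Finset.sum_congr rfl fun y _ => ?_
        rw [Finset.insert_union]
      rw [h4]
      linarith) A x trivial
  rw [Finset.union_eq_right.2 h] at this
  linarith

/-- superharmonicity of the value started afresh -/
lemma V_super (hc : ∀ x y, 0 ≤ c x y) (hκ : ∀ x, 0 < κ x) {g : Finset S → ℝ}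
    (hg : ∀ A C, A ⊆ C → g A ≤ g C) (hg0 : ∀ A, 0 ≤ g A) (x : S) :
    ∑ y, c x y * V c κ g {y} y ≤ (∑ y, c x y + κ x) * V c κ g {x} x := by
  rw [V_spec hc hκ g {x} x]
  have h1 : ∑ y, c x y * V c κ g {y} y ≤ ∑ y, c x y * V c κ g (insert y {x}) y :=
    Finset.sum_le_sum fun y _ => mul_le_mul_of_nonneg_left
      (V_mono hc hκ hg (Finset.singleton_subset_iff.2 (Finset.mem_insert_self _ _)) y) (hc _ _)
  have h2 : 0 ≤ κ x * g {x} := mul_nonneg (hκ x).le (hg0 _)
  linarith

end value

end Pool.Agent.Helper983.MT
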